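import Pool.Agent.Q10.JT.Avg

/-!
# Averaging linear relations between characters over a coset
-/

set_option linter.unusedSectionVars false

namespace Pool.Agent.Q10.JP

open Module
open Pool.Agent.Q60.TD (Stab SSon Op mem_Op stab_op)
open Pool.Agent.Q10.JT (inv dsum dsum_ss dsum_single exists_avg)

variable {K : Type*} [Field K] {G : Type*} [Group G] {ι : Type*} [Fintype ι] [DecidableEq ι]
  {M : ι → Type*} [∀ i, AddCommGroup (M i)] [∀ i, Module K (M i)]
  [∀ i, FiniteDimensional K (M i)] (ρ : ∀ i, G →* Module.End K (M i))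

/-- **Averaging over a coset.** Let `T i` be operators which act trivially on the invariants of the
semisimple representations `ρ i`. A linear relation between the traces of `T i * ρ i g` gives
a linear relation between the dimensions of the spaces of invariants. -/
theorem avg_coset (h : ∀ i, SSon (Op (ρ i) ⊤) ⊤) (T : ∀ i, Module.End K (M i))
    (hT : ∀ i, ∀ x ∈ inv (ρ i), T i x = x) (c : ι → K)
    (hc : ∀ g, ∑ i, c i * LinearMap.trace K _ (T i ∘ₗ ρ i g) = 0) :
    ∑ i, c i * (finrank K (inv (ρ i)) : K) = 0 := by
  obtain ⟨e, he, h1, h2⟩ := exists_avg (dsum_ss ρ h)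
  let L : Module.End K (∀ i, M i) →ₗ[K] K := ∑ i, c i • (LinearMap.trace K (M i) ∘ₗ
    (LinearMap.compRight K (T i ∘ₗ LinearMap.proj i)) ∘ₗ
      LinearMap.lcomp K _ (LinearMap.single K M i))
  have hL : ∀ S, L S = ∑ i, c i * LinearMap.trace K (M i)
      ((T i ∘ₗ LinearMap.proj i) ∘ₗ S ∘ₗ LinearMap.single K M i) := by
    intro S
    rw [LinearMap.sum_apply]
    rfl
  have h3 : L e = 0 := by
    have h4 : Submodule.span K (Op (dsum ρ) ⊤) ≤ LinearMap.ker L := by
      rw [Submodule.span_le]
      rintro _ ⟨g, -, rfl⟩
      change L _ = 0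
      rw [hL, ← hc g]
      refine Finset.sum_congr rfl fun i _ => ?_
      congr 2
      refine LinearMap.ext fun x => ?_
      change T i (dsum ρ g (LinearMap.single K M i x) i) = _
      rw [dsum_single, LinearMap.single_apply, Pi.single_eq_same]
      rfl
    exact h4 he
  rw [hL] at h3
  rw [← h3]
  refine Finset.sum_congr rfl fun i _ => ?_
  congr 1
  have h6 : ∀ x, e (LinearMap.single K M i x) i ∈ inv (ρ i) := by
    intro x g
    have h6 := h1 (LinearMap.single K M i x) g
    exact congrFun h6 i
  have h5 : LinearMap.IsProj (inv (ρ i))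
      ((T i ∘ₗ LinearMap.proj i) ∘ₗ e ∘ₗ LinearMap.single K M i) := by
    constructor
    · intro x
      change T i (e (LinearMap.single K M i x) i) ∈ _
      rw [hT i _ (h6 x)]
      exact h6 x
    · intro x hx
      have h7 : LinearMap.single K M i x ∈ inv (dsum ρ) := by
        intro g
        rw [dsum_single, hx g]
      change T i (e (LinearMap.single K M i x) i) = x
      rw [h2 _ h7, LinearMap.single_apply, Pi.single_eq_same, hT i x hx]
  exact (LinearMap.IsProj.trace h5).symm

end Pool.Agent.Q10.JP
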