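import Pool.Agent.Q10.JT.Defs

/-!
# The order of the pole on the reductions: definitions
-/

open CategoryTheory AlgebraicGeometry Polynomial

universe u w

namespace Pool.Agent.Q10.JP

open Pool.Agent.H914 Pool.Agent.H914.VarClass Pool.Agent.H914.VarClass.Obj
  Pool.Agent.H914.WeilCohomology
open Pool.Agent.Y133.Half (pw prj)
open Pool.Agent.Q55 (GaloisAction SubAction Virtually)
open Pool.Agent.Q50.MTC (IsTate)
open Pool.Agent.Q50.LI (dimSpan)
open Pool.Agent.Q10.JT (IsAltTate altPoly)

section Ext

variable {K V W D : Type*} [Field K] [AddCommGroup V] [Module K V] [AddCommGroup W] [Module K W]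

/-- The space of the linear maps which commute with the operators `ρ g` and `σ g`. -/
def comHoms (ρ : D → Module.End K V) (σ : D → Module.End K W) : Submodule K (V →ₗ[K] W) where
  carrier := {f | ∀ g x, f (ρ g x) = σ g (f x)}
  add_mem' {a b} ha hb g x := by rw [LinearMap.add_apply, LinearMap.add_apply, map_add, ha, hb]
  zero_mem' g x := by rw [LinearMap.zero_apply, LinearMap.zero_apply, map_zero]
  smul_mem' c a ha g x := by rw [LinearMap.smul_apply, LinearMap.smul_apply, map_smul, ha]

/-- The dimension of the space of the linear maps which commute with the operators `ρ g`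
and `σ g`. -/
noncomputable def comDim (ρ : D → Module.End K V) (σ : D → Module.End K W) : ℕ :=
  Module.finrank K (comHoms ρ σ)

/-- The operator on the exterior power. -/
noncomputable def extOp (σ : D → Module.End K V) (n : ℕ) (g : D) : Module.End K (⋀[K]^n V) :=
  exteriorPower.map n (σ g)

/-- The dimension of the space of the linear maps from `Λ ^ m V` to `Λ ^ n V` which commute with
the operators `σ g`. -/
noncomputable def extHomDim (σ : D → Module.End K V) (m n : ℕ) : ℕ :=
  comDim (extOp σ m) (extOp σ n)

/-- The polynomial `det (1 - f T)` is the rational polynomial `L`. -/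
def HasL [CharZero K] [Module.Finite K V] (f : Module.End K V) (L : ℚ[X]) : Prop :=
  f.charpoly.reverse = L.map (algebraMap ℚ K)

end Ext

section Mean

variable {ι : Type}

/-- The `w N` are weights with sum one. -/
def IsWeights (w : ℕ → ι → ℝ) : Prop :=
  (∀ N i, 0 ≤ w N i) ∧ ∀ N, HasSum (w N) 1

/-- The mean values of `f` for the weights `w N` exist and tend to `c`. -/
def HasMean (w : ℕ → ι → ℝ) (f : ι → ℝ) (c : ℝ) : Prop :=
  (∀ N, Summable fun i => w N i * f i) ∧
    Filter.Tendsto (fun N => ∑' i, w N i * f i) Filter.atTop (nhds c)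

/-- The number `(-1) ^ n * L_n`; if `L = det (1 - f T)` then this is the trace of `f` on the `n`-th
exterior power. -/
noncomputable def extTr (L : ℚ[X]) (n : ℕ) : ℝ := (-1) ^ n * (L.coeff n : ℝ)

/-- All the complex zeros of `L` have absolute value one. -/
def PureL (L : ℚ[X]) : Prop := ∀ z : ℂ, aeval z L = 0 → ‖z‖ = 1

/-- The mean values of the product of the traces on `Λ ^ m V` and `Λ ^ n V` are the dimensions of
the spaces of the maps between these spaces which commute with the operators `σ g`. -/
def MeanValues {K V D : Type*} [Field K] [AddCommGroup V] [Module K V] (σ : D → Module.End K V)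
    (L : ι → ℚ[X]) (w : ℕ → ι → ℝ) : Prop :=
  ∀ m ≤ Module.finrank K V, ∀ n ≤ Module.finrank K V,
    HasMean w (fun i => extTr (L i) m * extTr (L i) n) (extHomDim σ m n)

end Mean

section Alg

variable {Γ : Type w} [Group Γ] {K A : Type} [Field K] [Ring A] [Algebra K A]

/-- The element `c` is in the generalised eigenspace of `γ` in `gr` for the eigenvalue
`χ γ ^ j`. -/
def InEig (ρ : SubAction Γ K A) (χ : Γ →* Kˣ) (gr : Submodule K A) (j : ℕ) (γ : Γ) (c : A) :
    Prop :=
  c ∈ gr ∧ ∃ N : ℕ,
    (((ρ.act γ).toLinearMap - (χ γ : K) ^ j • LinearMap.id : Module.End K A) ^ N) c = 0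

open Classical in
/-- The action of `γ` on the subspace `gr`, divided by `χ γ ^ j`. (Zero if `gr` is not stable
under `γ`.) -/
noncomputable def twOn (ρ : SubAction Γ K A) (χ : Γ →* Kˣ) (gr : Submodule K A) (j : ℕ) (γ : Γ) :
    Module.End K gr :=
  if h : ∀ x ∈ gr, (ρ.act γ).toLinearMap x ∈ gr then
    ((χ γ : K) ^ j)⁻¹ • (ρ.act γ).toLinearMap.restrict h
  else 0

/-- The elements `γ i` of `Δ` behave like the Frobenius elements at the places of the field
belonging to `Δ`: the polynomial `L i = det (1 - γ i T)` for the action on `gr` twisted by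
`χ ^ (-j)` is rational, all its complex zeros have absolute value one, and the mean values for the
weights `w` (as `w_s(v) = N(v) ^ (-s) / ∑ N(v) ^ (-s)` for a sequence of real numbers `s` which
tends to the dimension from above) are given by `MeanValues`. -/
structure FrobLike [CharZero K] [Module.Finite K A] (ρ : SubAction Γ K A) (χ : Γ →* Kˣ)
    (gr : Submodule K A) (j : ℕ) (Δ : Subgroup Γ) {ι : Type} (γ : ι → Γ) (L : ι → ℚ[X])
    (w : ℕ → ι → ℝ) : Prop where
  mem : ∀ i, γ i ∈ Δ
  rational : ∀ i, HasL (twOn ρ χ gr j (γ i)) (L i)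
  pure : ∀ i, PureL (L i)
  weights : IsWeights w
  mean : MeanValues (fun g : Δ => twOn ρ χ gr j g) L w

end Alg

variable {k : Type u} [Field k] {𝒱 : VarClass k} {ops : CycleOps 𝒱}
  {E : WeilCohomology.{u, 0} ops} {Γ : Type w} [Group Γ] (G : GaloisAction E Γ)

/-- The multiplicity of the eigenvalue `χ γ ^ j` of `γ` on `H^(2 j)(X)`. For the Frobenius element
at a place `v` of good reduction this is the order of the pole of the zeta function of the reduction
of `X` at `v` in the point `s = j`, and the number of the Tate classes of codimension `j` on it if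
Frobenius is semisimple. -/
noncomputable def poleOrder (X : 𝒱.Obj) (j : ℕ) (γ : Γ) : ℕ :=
  dimSpan E.K (InEig (G.ρ X) G.χ (E.gr X (2 * j)) j γ)

/-- The order of the zero of `∑ t_n (-T) ^ n` in the point `T = 1`. -/
noncomputable def altOrder (X : 𝒱.Obj) (j : ℕ) : ℕ := (altPoly G X j).rootMultiplicity 1

/-- The element `γ` acts on `X` and on its powers `X ^ n` with `n ≤ b` compatibly with the
projections, and it fixes, up to the twist, all the alternating Tate classes. This holds for the
elements of a subgroup of finite index. -/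
def Small (X : 𝒱.Obj) (j : ℕ) (γ : Γ) : Prop :=
  γ ∈ (G.ρ X).dom ∧ ∀ n < JT.betti E X j, γ ∈ (G.ρ (pw X n)).dom ∧
    (∀ i, (G.ρ (pw X n)).Commutes (G.ρ X) (E.map (prj X n i)) γ) ∧
    ∀ c, IsAltTate G X j n c → (G.ρ (pw X n)).Twists G.χ (j * (n + 1)) c γ

/-- The elements `γ i` of `Δ` behave like the Frobenius elements for their action on
`H^(2 j)(X)(j)`. -/
def FrobData (X : 𝒱.Obj) (j : ℕ) (Δ : Subgroup Γ) {ι : Type} (γ : ι → Γ) (L : ι → ℚ[X])
    (w : ℕ → ι → ℝ) : Prop :=
  FrobLike (G.ρ X) G.χ (E.gr X (2 * j)) j Δ γ L w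

end Pool.Agent.Q10.JP
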