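import Pool.Agent.Q10.JT.Pol

/-!
# Real polynomials without zeros in the open unit disc
-/

open Polynomial

namespace Pool.Agent.Q10.JP

/-- The Taylor coefficient in one. -/
lemma taylor_at_one {R : Type*} [CommRing R] {P : R[X]} {N : ℕ} (hN : P.natDegree ≤ N) (i : ℕ) :
    (taylor 1 P).coeff i = ∑ n ∈ Finset.range (N + 1), (n.choose i : R) * P.coeff n := by
  rw [taylor_coeff, hasseDeriv_apply, Polynomial.sum_over_range' _ _ (N + 1) (by omega),
    eval_finsetSum]
  · refine Finset.sum_congr rfl fun n _ => ?_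
    rw [eval_monomial, one_pow, mul_one]
  · intro n
    simp

/-- The absolute value in one. -/
lemma norm_one_le {Q : ℂ[X]} (h0 : Q.eval 0 = 1) (hr : ∀ z, Q.eval z = 0 → 1 ≤ ‖z‖) :
    ‖Q.eval 1‖ ≤ 2 ^ Q.natDegree := by
  have hs := IsAlgClosed.splits Q
  have hne : Q ≠ 0 := by
    rintro rfl
    simp at h0
  have h1 := hs.eval_eq_prod_roots 1
  have h2 := hs.eval_eq_prod_roots 0
  rw [h0] at h2
  have h3 : ‖Q.eval 1‖ ≤ 2 ^ Multiset.card Q.roots *
      (‖Q.leadingCoeff‖ * (Q.roots.map fun a => ‖a‖).prod) := by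
    rw [h1, norm_mul]
    have h4 : ‖(Q.roots.map fun a => 1 - a).prod‖ = (Q.roots.map fun a => ‖1 - a‖).prod := by
      have h10 := map_multiset_prod (normHom : ℂ →*₀ ℝ) (Q.roots.map fun a => 1 - a)
      rw [Multiset.map_map] at h10
      exact h10
    have h5 : (Q.roots.map fun a => ‖1 - a‖).prod ≤ (Q.roots.map fun a => 2 * ‖a‖).prod := by
      refine Multiset.prod_map_le_prod_map₀ _ _ (fun a _ => norm_nonneg _) fun a ha => ?_
      have h6 := hr a (by
        rw [mem_roots hne] at ha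
        exact ha)
      have h7 := norm_sub_le (1 : ℂ) a
      rw [norm_one] at h7
      linarith
    rw [h4]
    refine (mul_le_mul_of_nonneg_left h5 (norm_nonneg _)).trans (le_of_eq ?_)
    rw [Multiset.prod_map_mul, Multiset.map_const', Multiset.prod_replicate]
    ring
  have h8 : ‖Q.leadingCoeff‖ * (Q.roots.map fun a => ‖a‖).prod = 1 := by
    have h9 := congrArg (fun z : ℂ => ‖z‖) h2
    simp only [norm_one, norm_mul, zero_sub] at h9
    rw [h9]
    congr 1
    have h10 := map_multiset_prod (normHom : ℂ →*₀ ℝ) (Q.roots.map fun a => -a)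
    rw [Multiset.map_map] at h10
    refine Eq.trans ?_ h10.symm
    congr 1
    refine Multiset.map_congr rfl fun a _ => ?_
    exact (norm_neg a).symm
  rw [h8, mul_one] at h3
  exact h3.trans (pow_le_pow_right₀ (by norm_num) (card_roots' Q))

/-- **Positivity.** -/
theorem pos_of_dvd {P : ℝ[X]} {b r : ℕ} (hb : P.natDegree ≤ b) (h0 : P.coeff 0 = 1)
    (hr : ∀ z : ℂ, aeval z P = 0 → 1 ≤ ‖z‖) (hd : (1 - X) ^ r ∣ P) :
    0 ≤ (-1) ^ r * ∑ n ∈ Finset.range (b + 1), (n.choose r : ℝ) * P.coeff n ∧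
    (-1) ^ r * ∑ n ∈ Finset.range (b + 1), (n.choose r : ℝ) * P.coeff n ≤ 2 ^ b := by
  obtain ⟨Q, hQ⟩ := hd
  have h1 : (-1) ^ r * ∑ n ∈ Finset.range (b + 1), (n.choose r : ℝ) * P.coeff n = Q.eval 1 := by
    rw [← taylor_at_one hb, hQ, taylor_mul, taylor_pow]
    have h2 : taylor (1 : ℝ) (1 - X) = -X := by
      rw [map_sub, Polynomial.taylor_one, taylor_X]
      rw [C_1]
      ring
    have h3 : (-X : ℝ[X]) ^ r * taylor 1 Q = C ((-1) ^ r) * (taylor 1 Q * X ^ r) := by
      rw [neg_pow, C_pow, C_neg, C_1]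
      ring
    rw [h2, h3, coeff_C_mul, coeff_mul_X_pow', if_pos le_rfl, Nat.sub_self, taylor_coeff_zero,
      ← mul_assoc, ← mul_pow]
    norm_num
  rw [h1]
  have hP0 : P ≠ 0 := by
    rintro rfl
    simp at h0
  have hQ0 : Q ≠ 0 := by
    rintro rfl
    exact hP0 (by rw [hQ, mul_zero])
  have h3 : Q.eval 0 = 1 := by
    have h4 : P.eval 0 = 1 := by
      rw [← coeff_zero_eq_eval_zero, h0]
    rw [hQ, eval_mul, eval_pow, eval_sub, eval_one, eval_X, sub_zero, one_pow, one_mul] at h4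
    exact h4
  have h4 : ∀ z : ℂ, aeval z Q = 0 → 1 ≤ ‖z‖ := by
    intro z hz
    apply hr
    rw [hQ, map_mul, hz, mul_zero]
  constructor
  · by_contra hneg
    push Not at hneg
    have hc : ContinuousOn (fun x : ℝ => Q.eval x) (Set.Icc 0 1) :=
      (Polynomial.continuous Q).continuousOn
    have h5 := intermediate_value_Icc' zero_le_one hc
    obtain ⟨x, ⟨hx0, hx1⟩, hx⟩ := h5 (show (0 : ℝ) ∈ Set.Icc (Q.eval 1) (Q.eval 0) from
      ⟨hneg.le, by rw [h3]; norm_num⟩)
    have h6 := h4 (x : ℂ) (by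
      have h7 : aeval (x : ℂ) Q = ((Q.eval x : ℝ) : ℂ) := by
        rw [← Complex.coe_algebraMap, aeval_algebraMap_apply]
        rfl
      rw [h7]
      change ((Q.eval x : ℝ) : ℂ) = 0
      have h8 : Q.eval x = 0 := hx
      rw [h8, Complex.ofReal_zero])
    rw [Complex.norm_real, Real.norm_of_nonneg hx0] at h6
    have h9 : x = 1 := le_antisymm hx1 h6
    rw [h9] at hx
    have h10 : Q.eval 1 = 0 := hx
    rw [h10] at hneg
    exact lt_irrefl _ hneg
  · have h5 := norm_one_le (Q := Q.map (algebraMap ℝ ℂ)) (by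
      rw [eval_map, ← aeval_def, ← map_zero (algebraMap ℝ ℂ), aeval_algebraMap_apply]
      change algebraMap ℝ ℂ (Q.eval 0) = _
      rw [h3, map_one]) (fun z hz => h4 z (by
      rw [eval_map, ← aeval_def] at hz
      exact hz))
    have h6 : (Q.map (algebraMap ℝ ℂ)).eval 1 = ((Q.eval 1 : ℝ) : ℂ) := by
      rw [eval_map, ← aeval_def, ← map_one (algebraMap ℝ ℂ), aeval_algebraMap_apply]
      rfl
    rw [h6, Complex.norm_real, natDegree_map] at h5
    refine (le_abs_self _).trans (h5.trans (pow_le_pow_right₀ (by norm_num) ?_))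
    have h7 : P.natDegree = ((1 - X : ℝ[X]) ^ r).natDegree + Q.natDegree := by
      rw [hQ, natDegree_mul _ hQ0]
      intro h
      rw [h, zero_mul] at hQ
      exact hP0 hQ
    omega

end Pool.Agent.Q10.JP
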