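import Pool.Agent.Q10.JP.Norm
import Pool.Agent.Q10.JP.Defs
import Pool.Agent.Q10.JT.Avg

/-!
# Virtual representations of norm zero
-/

set_option linter.unusedSectionVars false
set_option linter.style.haveILetI false

namespace Pool.Agent.Q10.JP

open Module
open Pool.Agent.Q60.TD (Stab SSon Op mem_Op stab_op)
open Pool.Agent.Q10.JT (inv)

universe v

variable {K : Type*} [Field K] {D : Type*} [Group D]

/-- The dimension of the space of the equivariant linear maps. -/
noncomputable def homDim {V W : Type*} [AddCommGroup V] [Module K V] [AddCommGroup W] [Module K W]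
    (ρ : D →* Module.End K V) (σ : D →* Module.End K W) : ℕ :=
  comDim (fun g => ρ g) (fun g => σ g)

/-- The module structure over the group algebra. -/
noncomputable abbrev amod {V : Type*} [AddCommGroup V] [Module K V] (ρ : D →* Module.End K V) :
    Module (MonoidAlgebra K D) V :=
  Module.compHom V (MonoidAlgebra.lift K (Module.End K V) D ρ).toRingHom

section one

variable {V : Type*} [AddCommGroup V] [Module K V] (ρ : D →* Module.End K V)

lemma amod_smul (r : MonoidAlgebra K D) (x : V) :
    (letI := amod ρ; r • x) = MonoidAlgebra.lift K (Module.End K V) D ρ r x := rfl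

lemma amod_single (g : D) (x : V) :
    (letI := amod ρ; (MonoidAlgebra.of K D g) • x) = ρ g x := by
  rw [amod_smul]
  rw [MonoidAlgebra.of_apply, MonoidAlgebra.lift_single, one_smul]

lemma amod_tower : @IsScalarTower K (MonoidAlgebra K D) V _ (amod ρ).toSMul _ := by
  letI := amod ρ
  refine ⟨fun c r x => ?_⟩
  change MonoidAlgebra.lift K (Module.End K V) D ρ (c • r) x =
    c • MonoidAlgebra.lift K (Module.End K V) D ρ r x
  rw [map_smul]
  rfl

lemma amod_ss (h : SSon (Op ρ ⊤) ⊤) : @IsSemisimpleModule (MonoidAlgebra K D) _ V _ (amod ρ) := by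
  letI := amod ρ
  have htow := amod_tower ρ
  have hcomp : ∀ U : Submodule (MonoidAlgebra K D) V, ∃ b, IsCompl U b := by
    intro U
    let U' : Submodule K V :=
      { carrier := U
        add_mem' := U.add_mem
        zero_mem' := U.zero_mem
        smul_mem' := fun c x hx => by
          have h1 := U.smul_mem (algebraMap K (MonoidAlgebra K D) c) hx
          rwa [algebraMap_smul] at h1 }
    have hU' : Stab (Op ρ ⊤) U' := by
      rw [stab_op]
      intro g _ w hw
      have h1 := U.smul_mem (MonoidAlgebra.of K D g) hw
      rw [show (MonoidAlgebra.of K D g) • w = ρ g w from amod_single ρ g w] at h1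
      exact h1
    obtain ⟨C, -, hC, h1, h2⟩ := h U' le_top hU'
    rw [stab_op] at hC
    have hCr : ∀ (r : MonoidAlgebra K D), ∀ x ∈ C, r • x ∈ C := by
      intro r
      induction r using MonoidAlgebra.induction_on with
      | of g =>
        intro x hx
        rw [show (MonoidAlgebra.of K D g) • x = ρ g x from amod_single ρ g x]
        exact hC g (Subgroup.mem_top g) x hx
      | add a b ha hb =>
        intro x hx
        rw [add_smul]
        exact C.add_mem (ha x hx) (hb x hx)
      | smul c a ha =>
        intro x hx
        rw [smul_assoc]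
        exact C.smul_mem c (ha x hx)
    let C' : Submodule (MonoidAlgebra K D) V :=
      { carrier := C
        add_mem' := C.add_mem
        zero_mem' := C.zero_mem
        smul_mem' := fun r x hx => hCr r x hx }
    refine ⟨C', disjoint_iff.2 ?_, codisjoint_iff.2 ?_⟩
    · rw [eq_bot_iff]
      rintro x ⟨hx, hx'⟩
      have h3 : x ∈ U' ⊓ C := ⟨hx, hx'⟩
      rw [h1, Submodule.mem_bot] at h3
      rw [h3]
      exact Submodule.zero_mem _
    · rw [eq_top_iff]
      intro x _
      have h3 : x ∈ U' ⊔ C := by rw [h2]; trivial
      obtain ⟨a, ha, b, hb, rfl⟩ := Submodule.mem_sup.1 h3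
      exact Submodule.add_mem_sup ha hb
  have icl : ComplementedLattice (Submodule (MonoidAlgebra K D) V) := ⟨hcomp⟩
  exact { }

end one

lemma hd_eq_homDim {V W : Type*} [AddCommGroup V] [Module K V] [AddCommGroup W] [Module K W]
    (ρ : D →* Module.End K V) (σ : D →* Module.End K W) :
    (letI := amod ρ; letI := amod σ; letI := amod_tower σ; hd K (MonoidAlgebra K D) V W) =
      homDim ρ σ := by
  letI := amod ρ
  letI := amod σ
  letI := amod_tower ρ
  letI := amod_tower σ
  rw [homDim, comDim]
  refine LinearEquiv.finrank_eq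
    { toFun := fun f => ⟨f.restrictScalars K, fun g x => ?_⟩
      invFun := fun f => { toFun := f.1, map_add' := map_add f.1, map_smul' := ?_ }
      map_add' := fun f g => rfl
      map_smul' := fun c f => rfl
      left_inv := fun f => rfl
      right_inv := fun f => rfl }
  · have h1 := f.map_smul (MonoidAlgebra.of K D g) x
    rw [show (MonoidAlgebra.of K D g) • x = ρ g x from amod_single ρ g x,
      show (MonoidAlgebra.of K D g) • f x = σ g (f x) from amod_single σ g (f x)] at h1
    exact h1
  · intro r
    induction r using MonoidAlgebra.induction_on with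
    | of g =>
      intro x
      rw [show (MonoidAlgebra.of K D g) • x = ρ g x from amod_single ρ g x,
        RingHom.id_apply,
        show (MonoidAlgebra.of K D g) • f.1 x = σ g (f.1 x) from amod_single σ g (f.1 x)]
      exact f.2 g x
    | add a b ha hb =>
      intro x
      rw [add_smul, map_add, ha x, hb x, RingHom.id_apply, RingHom.id_apply, RingHom.id_apply,
        add_smul]
    | smul c a ha =>
      intro x
      rw [smul_assoc, map_smul, ha x, RingHom.id_apply, RingHom.id_apply, smul_assoc]

/-- **Virtual representations of norm zero.** -/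
theorem norm_rep {ι : Type} [Fintype ι] [DecidableEq ι] {M : ι → Type v}
    [∀ i, AddCommGroup (M i)] [∀ i, Module K (M i)] [∀ i, FiniteDimensional K (M i)]
    (ρ : ∀ i, D →* Module.End K (M i)) (hss : ∀ i, SSon (Op (ρ i) ⊤) ⊤) (w : ι → ℤ)
    (h : ∑ i, ∑ j, w i * w j * (homDim (ρ i) (ρ j) : ℤ) = 0) (g : D) :
    ∑ i, (w i : K) * LinearMap.trace K (M i) (ρ i g) = 0 := by
  letI i1 : ∀ i, Module (MonoidAlgebra K D) (M i) := fun i => amod (ρ i)
  letI i2 : ∀ i, IsScalarTower K (MonoidAlgebra K D) (M i) := fun i => amod_tower (ρ i)
  haveI i3 : ∀ i, IsSemisimpleModule (MonoidAlgebra K D) (M i) := fun i => amod_ss (ρ i) (hss i)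
  have h1 := norm_zero (K := K) (R := MonoidAlgebra K D) (M := M) w (by
    rw [← h]
    refine Finset.sum_congr rfl fun i _ => Finset.sum_congr rfl fun j _ => ?_
    congr 2
    exact hd_eq_homDim (ρ i) (ρ j)) (MonoidAlgebra.of K D g)
  rw [← h1]
  refine Finset.sum_congr rfl fun i _ => ?_
  congr 1
  rw [tr]
  congr 1
  refine LinearMap.ext fun x => ?_
  exact (amod_single (ρ i) g x).symm

end Pool.Agent.Q10.JP
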