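import Pool.Agent.Q10.JP.Upper
import Pool.Agent.Q10.JP.Rep
import Pool.Agent.Q10.JP.Real

/-!
# The lower bound for the order of the pole
-/

open CategoryTheory AlgebraicGeometry

universe u w

set_option linter.unusedSectionVars false

namespace Pool.Agent.Q10.JP

open Module Topology
open Pool.Agent.H914 Pool.Agent.H914.VarClass Pool.Agent.H914.VarClass.Obj
  Pool.Agent.H914.WeilCohomology
open Pool.Agent.Y133.Half (pw prj)
open Pool.Agent.Q55 (GaloisAction SubAction Virtually)
open Pool.Agent.Q50.MTC (IsTate IsLadic)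
open Pool.Agent.Q50.LI (dimSpan tateDim)
open Pool.Agent.Q60.TD (SemisimpleAt SSon Op)
open Pool.Agent.Q10.JT
open Pool.Agent.Q10.JI (mult_smul altTr_zero)

section pol

open Polynomial

/-- If the reversed polynomial is divisible by `(1 - X) ^ r` then so is the polynomial. -/
lemma dvd_of_rev {K : Type*} [Field K] {p : K[X]} {r : ℕ} (h : (1 - X) ^ r ∣ p.reverse) :
    (X - C 1) ^ r ∣ p := by
  rcases eq_or_ne p 0 with rfl | hp
  · exact dvd_zero _
  obtain ⟨Q, hQ⟩ := h
  have hX : ((X - C 1 : K[X]) ^ r).natDegree = r := by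
    rw [natDegree_pow, natDegree_X_sub_C, mul_one]
  have h1 : ((1 - X : K[X]) ^ r) = reflect r ((X - C 1) ^ r) := by
    rw [← reverse_one_sub, reverse, hX]
  have h2 : reflect r ((1 - X : K[X]) ^ r) = (X - C 1) ^ r := by
    rw [h1, reflect_reflect]
  have h3 : ((1 - X : K[X]) ^ r).natDegree = r := by
    have h4 : (1 - X : K[X]) = -(X - C 1) := by
      rw [C_1]
      ring
    rw [natDegree_pow, h4, natDegree_neg, natDegree_X_sub_C, mul_one]
  have h0 : p.reverse ≠ 0 := by
    rw [Ne, reverse_eq_zero]
    exact hp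
  have hQ0 : Q ≠ 0 := by
    rintro rfl
    rw [mul_zero] at hQ
    exact h0 hQ
  have hne : ((1 - X : K[X]) ^ r) ≠ 0 := by
    intro h
    rw [h, zero_mul] at hQ
    exact h0 hQ
  have h5 : r + Q.natDegree ≤ p.natDegree := by
    have h6 := reverse_natDegree_le p
    rw [hQ, natDegree_mul hne hQ0, h3] at h6
    exact h6
  have h7 : p = reflect p.natDegree p.reverse := by
    rw [reverse, reflect_reflect]
  have h8 : p.natDegree = r + (p.natDegree - r) := by omega
  rw [h7, h8, hQ, reflect_mul _ _ h3.le (by omega), h2]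
  exact dvd_mul_right _ _

end pol

section lin

variable {K V : Type*} [Field K] [AddCommGroup V] [Module K V] [FiniteDimensional K V]

lemma rev_charpoly_coeff (f : V →ₗ[K] V) (n : ℕ) :
    f.charpoly.reverse.coeff n = (-1) ^ n * LinearMap.trace K _ (exteriorPower.map n f) := by
  classical
  let b := finBasis K V
  rw [trace_ext b, ← rev_coeff, ← Matrix.reverse_charpoly, LinearMap.charpoly_toMatrix]

lemma rev_charpoly_natDegree (f : V →ₗ[K] V) : f.charpoly.reverse.natDegree ≤ finrank K V := by
  refine (Polynomial.reverse_natDegree_le _).trans ?_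
  rw [LinearMap.charpoly_natDegree]

lemma rev_charpoly_zero (f : V →ₗ[K] V) : f.charpoly.reverse.coeff 0 = 1 := by
  rw [Polynomial.coeff_zero_reverse]
  exact (LinearMap.charpoly_monic f)

/-- The multiplicity from the vanishing of the alternating sums. -/
theorem mult_of_altTr {f : V →ₗ[K] V} {r : ℕ} (h : ∀ i < r, altTr i f = 0) :
    r ≤ f.charpoly.rootMultiplicity 1 := by
  refine (Polynomial.le_rootMultiplicity_iff (LinearMap.charpoly_monic f).ne_zero).2 ?_
  apply dvd_of_rev
  rw [dvd_iff (rev_charpoly_natDegree f)]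
  intro i hi
  rw [← h i hi, altTr]
  refine Finset.sum_congr rfl fun n _ => ?_
  rw [rev_charpoly_coeff]

/-- The equivariant maps from the trivial representation. -/
lemma homDim_zero {D W : Type*} [Group D] [AddCommGroup W] [Module K W] (ρ : D →* Module.End K V)
    (σ : D →* Module.End K W) : homDim (repL ρ 0) σ = finrank K (inv σ) := by
  let z : (⋀[K]^0 V) ≃ₗ[K] K := exteriorPower.zeroEquiv K V
  rw [homDim, comDim]
  refine LinearEquiv.finrank_eq
    { toFun := fun f => ⟨f.1 (z.symm 1), fun g => ?_⟩
      invFun := fun x => ⟨(LinearMap.toSpanSingleton K W x.1) ∘ₗ z.toLinearMap, fun g y => ?_⟩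
      map_add' := fun f g => rfl
      map_smul' := fun c f => rfl
      left_inv := fun f => ?_
      right_inv := fun x => ?_ }
  · have h1 : f.1 (repL ρ 0 g (z.symm 1)) = σ g (f.1 (z.symm 1)) := f.2 g (z.symm 1)
    rw [repL_zero] at h1
    exact h1.symm
  · change z (repL ρ 0 g y) • x.1 = σ g (z y • x.1)
    rw [repL_zero, map_smul, x.2 g]
    rfl
  · apply Subtype.ext
    refine LinearMap.ext fun y => ?_
    change z y • f.1 (z.symm 1) = f.1 y
    rw [← map_smul, ← map_smul, smul_eq_mul, mul_one, z.symm_apply_apply]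
  · apply Subtype.ext
    change z (z.symm 1) • x.1 = x.1
    rw [z.apply_symm_apply, one_smul]

end lin

section mean

variable {ι : Type} {w : ℕ → ι → ℝ}

lemma HasMean.add {f g : ι → ℝ} {a b : ℝ} (hf : HasMean w f a) (hg : HasMean w g b) :
    HasMean w (fun i => f i + g i) (a + b) := by
  constructor
  · intro N
    have h1 := (hf.1 N).add (hg.1 N)
    refine h1.congr fun i => ?_
    ring
  · refine (hf.2.add hg.2).congr fun N => ?_
    rw [← (hf.1 N).tsum_add (hg.1 N)]
    refine tsum_congr fun i => ?_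
    ring

lemma HasMean.smul {f : ι → ℝ} {a : ℝ} (c : ℝ) (hf : HasMean w f a) :
    HasMean w (fun i => c * f i) (c * a) := by
  constructor
  · intro N
    have h1 := (hf.1 N).mul_left c
    refine h1.congr fun i => ?_
    ring
  · refine (hf.2.const_mul c).congr fun N => ?_
    rw [← tsum_mul_left]
    refine tsum_congr fun i => ?_
    ring

lemma HasMean.zero : HasMean w (fun _ => 0) 0 := by
  constructor
  · intro N
    simpa using summable_zero
  · simp

lemma HasMean.sum {κ : Type*} (s : Finset κ) {f : κ → ι → ℝ} {a : κ → ℝ}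
    (h : ∀ k ∈ s, HasMean w (f k) (a k)) :
    HasMean w (fun i => ∑ k ∈ s, f k i) (∑ k ∈ s, a k) := by
  classical
  induction s using Finset.induction_on with
  | empty => simpa using HasMean.zero
  | insert x s hx ih =>
    have h1 := (h x (Finset.mem_insert_self _ _)).add
      (ih fun k hk => h k (Finset.mem_insert_of_mem hk))
    rw [Finset.sum_insert hx]
    simpa only [Finset.sum_insert hx] using h1

/-- If `0 ≤ f ≤ B` has mean zero then so has its square. -/
lemma HasMean.sq_zero (hw : IsWeights w) {f : ι → ℝ} {B c : ℝ} (h0 : ∀ i, 0 ≤ f i)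
    (hB : ∀ i, f i ≤ B) (hf : HasMean w f 0) (hf2 : HasMean w (fun i => f i * f i) c) :
    c = 0 := by
  have h1 : Filter.Tendsto (fun N => B * ∑' i, w N i * f i) Filter.atTop (𝓝 (B * 0)) :=
    hf.2.const_mul B
  rw [mul_zero] at h1
  refine tendsto_nhds_unique hf2.2 ?_
  refine squeeze_zero (fun N => tsum_nonneg fun i => ?_) (fun N => ?_) h1
  · exact mul_nonneg (hw.1 N i) (mul_self_nonneg _)
  · rw [← tsum_mul_left]
    refine (hf2.1 N).tsum_le_tsum (fun i => ?_) ((hf.1 N).mul_left B)
    have h2 : f i * f i ≤ B * f i := mul_le_mul_of_nonneg_right (hB i) (h0 i)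
    have h3 := mul_le_mul_of_nonneg_left h2 (hw.1 N i)
    linarith

end mean

end Pool.Agent.Q10.JP
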