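import Pool.Agent.Q10.JP.Lower

/-!
# The order of the pole
-/

open CategoryTheory AlgebraicGeometry

universe u w

set_option linter.unusedSectionVars false

namespace Pool.Agent.Q10.JP

open Module Topology
open Pool.Agent.H914 Pool.Agent.H914.VarClass Pool.Agent.H914.VarClass.Obj
  Pool.Agent.H914.WeilCohomology
open Pool.Agent.Y133.Half (pw prj)
open Pool.Agent.Q55 (GaloisAction SubAction Virtually)
open Pool.Agent.Q50.MTC (IsTate IsLadic)
open Pool.Agent.Q50.LI (dimSpan tateDim)
open Pool.Agent.Q60.TD (SemisimpleAt SSon Op)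
open Pool.Agent.Q10.JT
open Pool.Agent.Q10.JI (mult_smul altTr_zero)

variable {k : Type u} [Field k] {𝒱 : VarClass k} {ops : CycleOps 𝒱}
  {E : WeilCohomology.{u, 0} ops} {Γ : Type w} [Group Γ]
  {G : GaloisAction E Γ} {X : 𝒱.Obj}

lemma twOn_eq {j : ℕ} {γ : Γ} (hd : γ ∈ (G.ρ X).dom) :
    twOn (G.ρ X) G.χ (E.gr X (2 * j)) j γ = repV G X j (G.ρ X).dom le_rfl ⟨γ, hd⟩ := by
  have hst : ∀ x ∈ E.gr X (2 * j), ((G.ρ X).act γ).toLinearMap x ∈ E.gr X (2 * j) :=
    fun x hx => (G.isGalois X).gr_mem γ hd (2 * j) x hx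
  rw [twOn, dif_pos hst]
  rfl

lemma extHomDim_eq {j : ℕ} {Δ : Subgroup Γ} (hd : Δ ≤ (G.ρ X).dom) (m n : ℕ) :
    extHomDim (fun g : Δ => twOn (G.ρ X) G.χ (E.gr X (2 * j)) j g) m n =
      homDim (repL (repV G X j Δ hd) m) (repL (repV G X j Δ hd) n) := by
  have h2 : (fun g : Δ => twOn (G.ρ X) G.χ (E.gr X (2 * j)) j g) =
      fun g : Δ => repV G X j (G.ρ X).dom le_rfl ⟨g, hd g.2⟩ := funext fun g => twOn_eq (hd g.2)
  rw [extHomDim, homDim, h2]
  rfl

lemma L_coeff {j : ℕ} {γ : Γ} {L : Polynomial ℚ}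
    (h : HasL (twOn (G.ρ X) G.χ (E.gr X (2 * j)) j γ) L)
    (hd : γ ∈ (G.ρ X).dom) (n : ℕ) : (L.coeff n : E.K) = (-1) ^ n *
      LinearMap.trace E.K _ (exteriorPower.map n (repV G X j (G.ρ X).dom le_rfl ⟨γ, hd⟩)) := by
  rw [HasL, twOn_eq hd] at h
  have h1 := rev_charpoly_coeff (repV G X j (G.ρ X).dom le_rfl ⟨γ, hd⟩) n
  rw [h, Polynomial.coeff_map] at h1
  exact h1

lemma L_altTr {j : ℕ} {γ : Γ} {L : Polynomial ℚ}
    (h : HasL (twOn (G.ρ X) G.χ (E.gr X (2 * j)) j γ) L)
    (hd : γ ∈ (G.ρ X).dom) (i : ℕ) :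
    ((∑ n ∈ Finset.range (JT.betti E X j + 1), (n.choose i : ℚ) * L.coeff n : ℚ) : E.K) =
      altTr i (repV G X j (G.ρ X).dom le_rfl ⟨γ, hd⟩) := by
  rw [altTr, ← JT.betti_eq]
  push_cast
  refine Finset.sum_congr rfl fun n _ => ?_
  rw [L_coeff h hd]

lemma L_natDegree {j : ℕ} {γ : Γ} {L : Polynomial ℚ}
    (h : HasL (twOn (G.ρ X) G.χ (E.gr X (2 * j)) j γ) L) :
    L.natDegree ≤ JT.betti E X j := by
  have h1 := rev_charpoly_natDegree (twOn (G.ρ X) G.χ (E.gr X (2 * j)) j γ)
  rw [h, Polynomial.natDegree_map] at h1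
  rw [JT.betti_eq]
  exact h1

lemma L_zero {j : ℕ} {γ : Γ} {L : Polynomial ℚ}
    (h : HasL (twOn (G.ρ X) G.χ (E.gr X (2 * j)) j γ) L) : L.coeff 0 = 1 := by
  have h1 := rev_charpoly_zero (twOn (G.ρ X) G.χ (E.gr X (2 * j)) j γ)
  rw [h, Polynomial.coeff_map] at h1
  have h2 : ((L.coeff 0 : ℚ) : E.K) = ((1 : ℚ) : E.K) := by
    rw [Rat.cast_one]
    exact h1
  exact_mod_cast h2

/-- **The lower bound.** -/
theorem lower {j : ℕ} (hss : SemisimplePowers G X j) {Δ : Subgroup Γ} (hΔ : Δ.FiniteIndex)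
    (hs : ∀ γ ∈ Δ, Small G X j γ) {ι : Type} {γ : ι → Γ}
    {L : ι → Polynomial ℚ} {w : ℕ → ι → ℝ} (hF : FrobData G X j Δ γ L w) {g : Γ}
    (hg : g ∈ Δ) : altOrder G X j ≤ poleOrder G X j g := by
  classical
  have hd : Δ ≤ (G.ρ X).dom := fun g hg => (hs g hg).1
  let _ : TopologicalSpace Γ := ⊥
  obtain ⟨m, hm⟩ : ∃ m, m = altOrder G X j := ⟨_, rfl⟩
  obtain ⟨b, hb⟩ : ∃ b, b = JT.betti E X j := ⟨_, rfl⟩
  have hbf : b = finrank E.K (E.gr X (2 * j)) := by rw [hb, JT.betti_eq]
  have hgood : ∀ n < JT.betti E X j, ∀ g ∈ Δ, Good G X n g := fun n hn g hg =>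
    (hs g hg).good hn
  have htate : ∀ n < JT.betti E X j, ∀ g ∈ Δ, ∀ c, IsAltTate G X j n c →
      (G.ρ (pw X n)).Twists G.χ (j * (n + 1)) c g := fun n hn g hg =>
    ((hs g hg).2 n hn).2.2
  let ρ : ∀ n : Fin (b + 1), Δ →* Module.End E.K (⋀[E.K]^(n : ℕ) (E.gr X (2 * j))) :=
    fun n => repL (repV G X j Δ hd) n
  have hss' : ∀ n, SSon (Op (ρ n) ⊤) ⊤ := by
    rintro ⟨n, hn⟩
    rcases n with _ | n
    · exact ss_zero _
    · exact ss_ext (hss n (by omega)) hΔ hd (hgood n (by omega))
  have hinv : ∀ n : Fin (b + 1), finrank E.K (inv (ρ n)) = altDim G X j n := by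
    rintro ⟨n, hn⟩
    rcases n with _ | n
    · exact inv_zero' _
    · exact finrank_inv hΔ hd (hgood n (by omega)) (htate n (by omega))
  -- the induction
  have key : ∀ r ≤ m, ∀ g : Γ, ∀ hg : g ∈ Δ, ∀ i < r,
      altTr i (repV G X j (G.ρ X).dom le_rfl ⟨g, hd hg⟩) = 0 := by
    intro r
    induction r with
    | zero =>
      intro _ g hg i hi
      exact absurd hi (Nat.not_lt_zero i)
    | succ r ih =>
      intro hr g hg i hi
      rcases Nat.lt_succ_iff_lt_or_eq.1 hi with h | h
      · exact ih (by omega) g hg i h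
      subst h
      -- the numbers
      obtain ⟨c, hc⟩ : ∃ c : ι → ℝ, ∀ x, c x = (-1) ^ i *
        ∑ n ∈ Finset.range (b + 1), (n.choose i : ℝ) * ((L x).coeff n : ℝ) := ⟨_, fun _ => rfl⟩
      have hpos : ∀ x, 0 ≤ c x ∧ c x ≤ 2 ^ b := by
        intro x
        have h1 := pos_of_dvd (P := (L x).map (algebraMap ℚ ℝ)) (b := b) (r := i) (by
          rw [Polynomial.natDegree_map, hb]
          exact L_natDegree (hF.rational x)) (by
          rw [Polynomial.coeff_map, L_zero (hF.rational x), map_one]) (by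
          intro z hz
          rw [Polynomial.aeval_map_algebraMap] at hz
          exact (hF.pure x z hz).ge) (by
          rw [dvd_iff (N := b) (by
            rw [Polynomial.natDegree_map, hb]
            exact L_natDegree (hF.rational x))]
          intro t ht
          have h2 := ih (by omega) (γ x) (hF.mem x) t ht
          rw [← L_altTr (hF.rational x), ← hb] at h2
          have h3 : ∑ n ∈ Finset.range (b + 1), (n.choose t : ℚ) * (L x).coeff n = 0 := by
            exact_mod_cast h2
          have h4 := congrArg (algebraMap ℚ ℝ) h3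
          rw [map_sum, map_zero] at h4
          rw [← h4]
          refine Finset.sum_congr rfl fun n _ => ?_
          rw [Polynomial.coeff_map, map_mul, map_natCast])
        have h5 : (-1) ^ i * ∑ n ∈ Finset.range (b + 1), (n.choose i : ℝ) *
            ((L x).map (algebraMap ℚ ℝ)).coeff n = c x := by
          rw [hc]
          congr 1
          refine Finset.sum_congr rfl fun n _ => ?_
          rw [Polynomial.coeff_map]
          rfl
        rw [h5] at h1
        exact h1
      -- the weights of the exterior powers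
      obtain ⟨a, ha⟩ : ∃ a : Fin (b + 1) → ℤ, ∀ n : Fin (b + 1), a n =
        (-1) ^ (n : ℕ) * ((n : ℕ).choose i : ℤ) := ⟨_, fun _ => rfl⟩
      have hc1 : ∀ x, c x = (-1) ^ i * ∑ n : Fin (b + 1), (a n : ℝ) * extTr (L x) n := by
        intro x
        rw [hc, Finset.sum_range]
        congr 1
        refine Finset.sum_congr rfl fun n _ => ?_
        rw [ha, extTr]
        push_cast
        have h6 : ((-1 : ℝ) ^ (n : ℕ)) * (-1) ^ (n : ℕ) = 1 := by
          rw [← mul_pow]
          norm_num
        linear_combination (-(((n : ℕ).choose i : ℝ) * ((L x).coeff n : ℝ))) * h6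
      have hmean : ∀ p q : Fin (b + 1), HasMean w (fun x => extTr (L x) p * extTr (L x) q)
          (homDim (ρ p) (ρ q)) := by
        intro p q
        have hp := p.2
        have hq := q.2
        have h1 := hF.mean p (by omega) q (by omega)
        rw [extHomDim_eq hd] at h1
        exact h1
      -- the mean value
      have hm1 : HasMean w c 0 := by
        have h1 : HasMean w (fun x => (-1) ^ i * ∑ n : Fin (b + 1), (a n : ℝ) *
            (extTr (L x) (0 : Fin (b + 1)) * extTr (L x) n))
            ((-1) ^ i * ∑ n : Fin (b + 1), (a n : ℝ) * (homDim (ρ 0) (ρ n) : ℝ)) := by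
          apply HasMean.smul
          apply HasMean.sum
          intro n _
          exact (hmean 0 n).smul _
        have h2 : (fun x => (-1) ^ i * ∑ n : Fin (b + 1), (a n : ℝ) *
            (extTr (L x) (0 : Fin (b + 1)) * extTr (L x) n)) = c := by
          funext x
          rw [hc1]
          have h3 : extTr (L x) ((0 : Fin (b + 1)) : ℕ) = 1 := by
            rw [extTr]
            change (-1) ^ 0 * ((L x).coeff 0 : ℝ) = 1
            rw [L_zero (hF.rational x)]
            norm_num
          simp only [h3, one_mul]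
        have h4 : ∑ n : Fin (b + 1), (a n : ℝ) * (homDim (ρ 0) (ρ n) : ℝ) = 0 := by
          have h5 : ∀ n : Fin (b + 1), homDim (ρ 0) (ρ n) = altDim G X j n := by
            intro n
            rw [← hinv n]
            exact homDim_zero _ _
          simp only [h5]
          have h6 := pow_dvd G X j
          rw [← hm, dvd_iff (altPoly_natDegree G X j)] at h6
          have h7 := h6 i (by omega)
          have h8 : ∑ n : Fin (b + 1), a n * (altDim G X j n : ℤ) = 0 := by
            rw [← h7, ← hb, Finset.sum_range]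
            refine Finset.sum_congr rfl fun n _ => ?_
            have hn := n.2
            rw [altPoly_coeff G X j n (by omega), ha]
            push_cast
            ring
          exact_mod_cast h8
        rw [h2, h4, mul_zero] at h1
        exact h1
      -- the square
      have hm2 : HasMean w (fun x => c x * c x)
          (∑ p : Fin (b + 1), ∑ q : Fin (b + 1), (a p : ℝ) * a q * (homDim (ρ p) (ρ q) : ℝ)) := by
        have h1 : HasMean w (fun x => ∑ p : Fin (b + 1), ∑ q : Fin (b + 1), (a p : ℝ) * a q *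
            (extTr (L x) p * extTr (L x) q))
            (∑ p : Fin (b + 1), ∑ q : Fin (b + 1), (a p : ℝ) * a q *
              (homDim (ρ p) (ρ q) : ℝ)) := by
          apply HasMean.sum
          intro p _
          apply HasMean.sum
          intro q _
          exact (hmean p q).smul _
        have h2 : (fun x => ∑ p : Fin (b + 1), ∑ q : Fin (b + 1), (a p : ℝ) * a q *
            (extTr (L x) p * extTr (L x) q)) = fun x => c x * c x := by
          funext x
          have h3 : ((-1 : ℝ) ^ i) * (-1) ^ i = 1 := by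
            rw [← mul_pow]
            norm_num
          have h4 : c x * c x = (∑ n : Fin (b + 1), (a n : ℝ) * extTr (L x) n) *
              ∑ n : Fin (b + 1), (a n : ℝ) * extTr (L x) n := by
            rw [hc1]
            linear_combination ((∑ n : Fin (b + 1), (a n : ℝ) * extTr (L x) n) *
              ∑ n : Fin (b + 1), (a n : ℝ) * extTr (L x) n) * h3
          rw [h4, Finset.sum_mul_sum]
          refine Finset.sum_congr rfl fun p _ => Finset.sum_congr rfl fun q _ => ?_
          ring
        rw [h2] at h1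
        exact h1
      have hzero := HasMean.sq_zero hF.weights (fun x => (hpos x).1) (fun x => (hpos x).2) hm1 hm2
      have hzero' : ∑ p : Fin (b + 1), ∑ q : Fin (b + 1),
          a p * a q * (homDim (ρ p) (ρ q) : ℤ) = 0 := by
        exact_mod_cast hzero
      have hfin := norm_rep ρ hss' a hzero' ⟨g, hg⟩
      rw [altTr, ← hbf, Finset.sum_range, ← hfin]
      refine Finset.sum_congr rfl fun n _ => ?_
      have hT : LinearMap.trace E.K _ (exteriorPower.map (n : ℕ)
          (repV G X j (G.ρ X).dom le_rfl ⟨g, hd hg⟩)) =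
          LinearMap.trace E.K _ (ρ n ⟨g, hg⟩) := rfl
      rw [ha, hT]
      push_cast
      ring
  have h1 := mult_of_altTr (fun i hi => key m le_rfl g hg i hi)
  rw [← hm, poleOrder_eq (hd hg)]
  exact h1

/-- The elements of a subgroup of finite index are small. -/
theorem virt_small (G : GaloisAction E Γ) (X : 𝒱.Obj) (j : ℕ) : Virtually (Small G X j) := by
  choose D1 hD1 h1 using fun n => exists_good G X n
  choose D2 hD2 h2 using fun n => exists_common G X j n
  have hd := (G.isGalois X).finiteIndex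
  have hf1 : (⨅ n : Fin (JT.betti E X j), D1 n).FiniteIndex :=
    Subgroup.finiteIndex_iInf fun n => hD1 n
  have hf2 : (⨅ n : Fin (JT.betti E X j), D2 n).FiniteIndex :=
    Subgroup.finiteIndex_iInf fun n => hD2 n
  refine ⟨(G.ρ X).dom ⊓ (⨅ n : Fin (JT.betti E X j), D1 n) ⊓
    (⨅ n : Fin (JT.betti E X j), D2 n), inferInstance, ?_⟩
  rintro g ⟨⟨h3, h4⟩, h5⟩
  refine ⟨h3, fun n hn => ?_⟩
  have h6 := h1 n g ((Subgroup.mem_iInf.1 h4) ⟨n, hn⟩)
  exact ⟨h6.2.1, h6.2.2, h2 n g ((Subgroup.mem_iInf.1 h5) ⟨n, hn⟩)⟩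

/-- The number of the Tate classes is a lower bound. -/
theorem tateDim_le_altOrder {j : ℕ} (hss : SemisimplePowers G X j) :
    tateDim G X j ≤ altOrder G X j := by
  let _ : TopologicalSpace Γ := ⊥
  apply le_altOrder
  apply Pool.Agent.Q10.JI.dvd_of hss
  obtain ⟨Δ₁, hΔ₁, h1⟩ := exists_common_tate G X j
  refine ⟨Δ₁, hΔ₁, fun g hg hd i hi => ?_⟩
  refine altTr_zero (Pool.Agent.Q10.JI.tateDim_le hd fun c hc => ?_) hi
  exact h1 g hg c (Submodule.subset_span hc) hd

/-- If there are no exotic classes then the order is the number of Tate classes. -/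
theorem altOrder_eq {j : ℕ} (hss : SemisimplePowers G X j) (hno : NoOddExotic G X j) :
    altOrder G X j = tateDim G X j := by
  refine le_antisymm ?_ (tateDim_le_altOrder hss)
  by_contra h
  push Not at h
  obtain ⟨n, h1, h2, h3, c, hc, hc'⟩ := Pool.Agent.Q10.JI.exotic_of_dvd (pow_dvd G X j) h
  exact hc' (hno n h1 h2 h3 c hc)

end Pool.Agent.Q10.JP
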