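import Mathlib

/-!
# A virtual semisimple module of norm zero has character zero
-/

open Module

namespace Pool.Agent.Q10.JP

universe v

variable {K R : Type*} [Field K] [Ring R] [Algebra K R]

section hom

variable {U V W : Type*} [AddCommGroup U] [Module K U] [Module R U]
  [IsScalarTower K R U] [FiniteDimensional K U] [AddCommGroup V] [Module K V] [Module R V]
  [IsScalarTower K R V] [FiniteDimensional K V] [AddCommGroup W] [Module K W] [Module R W]
  [IsScalarTower K R W] [FiniteDimensional K W]

instance hom_finite : FiniteDimensional K (U →ₗ[R] V) := by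
  refine Module.Finite.of_injective (LinearMap.restrictScalarsₗ K R U V K) ?_
  intro f g h
  refine LinearMap.ext fun x => ?_
  exact LinearMap.congr_fun h x

instance sub_finite (S : Submodule R V) : FiniteDimensional K S :=
  Module.Finite.of_injective (S.subtype.restrictScalars K) Subtype.val_injective

variable (K R) in
/-- The dimension of the space of homomorphisms. -/
noncomputable def hd (U V : Type*) [AddCommGroup U] [Module R U] [AddCommGroup V] [Module K V]
    [Module R V] [IsScalarTower K R V] : ℕ := finrank K (U →ₗ[R] V)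

lemma hd_congr_left (e : U ≃ₗ[R] V) : hd K R U W = hd K R V W :=
  LinearEquiv.finrank_eq (LinearEquiv.congrLeft W K e)

omit [FiniteDimensional K U] [FiniteDimensional K V] [FiniteDimensional K W] in
lemma hd_congr_right (e : V ≃ₗ[R] W) : hd K R U V = hd K R U W := by
  refine LinearEquiv.finrank_eq
    { toFun := fun f => e.toLinearMap ∘ₗ f
      invFun := fun f => e.symm.toLinearMap ∘ₗ f
      map_add' := fun f g => LinearMap.ext fun x => map_add e _ _
      map_smul' := fun c f => LinearMap.ext fun x => ?_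
      left_inv := fun f => LinearMap.ext fun x => e.symm_apply_apply _
      right_inv := fun f => LinearMap.ext fun x => e.apply_symm_apply _ }
  change e (c • f x) = c • e (f x)
  rw [← algebraMap_smul R c (f x), map_smul, algebraMap_smul]

lemma hd_prod_left : hd K R (U × V) W = hd K R U W + hd K R V W := by
  rw [hd, ← LinearEquiv.finrank_eq (LinearMap.coprodEquiv (R := R) (M := U) (M₂ := V) (M₃ := W) K),
    finrank_prod]
  rfl

lemma hd_prod_right : hd K R U (V × W) = hd K R U V + hd K R U W := by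
  rw [hd, ← LinearEquiv.finrank_eq (LinearMap.prodEquiv (R := R) (M := U) (M₂ := V) (M₃ := W) K),
    finrank_prod]
  rfl

variable (K) in
/-- The trace of the action of `r`. -/
noncomputable def tr (U : Type*) [AddCommGroup U] [Module K U] [Module R U]
    [IsScalarTower K R U] (r : R) : K := LinearMap.trace K U (Algebra.lsmul K K U r)

omit [FiniteDimensional K U] [FiniteDimensional K V] in
lemma tr_congr (e : U ≃ₗ[R] V) (r : R) : tr K U r = tr K V r := by
  let e' : U ≃ₗ[K] V := e.restrictScalars K
  rw [tr, tr, ← LinearMap.trace_conj' _ e']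
  congr 1
  refine LinearMap.ext fun x => ?_
  change e (r • e.symm x) = r • x
  rw [map_smul, e.apply_symm_apply]

lemma tr_prod (r : R) : tr K (U × V) r = tr K U r + tr K V r := by
  rw [tr, tr, tr, ← LinearMap.trace_prodMap']
  rfl

end hom

/-- **Splitting off the image of a homomorphism.** -/
lemma split {U V : Type v} [AddCommGroup U] [Module K U] [Module R U]
    [IsScalarTower K R U] [FiniteDimensional K U] [IsSemisimpleModule R U]
    [AddCommGroup V] [Module K V] [Module R V]
    [IsScalarTower K R V] [FiniteDimensional K V] [IsSemisimpleModule R V] (f : U →ₗ[R] V)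
    (hf : f ≠ 0) : ∃ (S : Submodule R V) (A : Submodule R U) (C : Submodule R V),
      finrank K A < finrank K U ∧ finrank K C < finrank K V ∧ Nonempty (U ≃ₗ[R] S × A) ∧
      Nonempty (V ≃ₗ[R] S × C) := by
  obtain ⟨B, hB⟩ := exists_isCompl (LinearMap.ker f)
  obtain ⟨C, hC⟩ := exists_isCompl (LinearMap.range f)
  have e1 : (LinearMap.ker f × B) ≃ₗ[R] U := Submodule.prodEquivOfIsCompl _ _ hB
  have e2 : (LinearMap.range f × C) ≃ₗ[R] V := Submodule.prodEquivOfIsCompl _ _ hC
  have e3 : B ≃ₗ[R] LinearMap.range f :=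
    (Submodule.quotientEquivOfIsCompl _ _ hB).symm.trans f.quotKerEquivRange
  have hpos : 0 < finrank K (LinearMap.range f) := by
    rw [finrank_pos_iff_exists_ne_zero]
    obtain ⟨x, hx⟩ : ∃ x, f x ≠ 0 := by
      by_contra h
      push Not at h
      exact hf (LinearMap.ext h)
    exact ⟨⟨f x, x, rfl⟩, fun h => hx (congrArg Subtype.val h)⟩
  refine ⟨LinearMap.range f, LinearMap.ker f, C, ?_, ?_, ⟨?_⟩, ⟨e2.symm⟩⟩
  · have h1 := LinearEquiv.finrank_eq (e1.restrictScalars K)
    rw [finrank_prod] at h1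
    have h2 := LinearEquiv.finrank_eq (e3.restrictScalars K)
    omega
  · have h1 := LinearEquiv.finrank_eq (e2.restrictScalars K)
    rw [finrank_prod] at h1
    omega
  · exact e1.symm.trans ((LinearEquiv.prodComm R _ _).trans
      (e3.prodCongr (LinearEquiv.refl R _)))

/-- **Norm zero.** -/
theorem norm_zero_aux (n : ℕ) : ∀ (U V : Type v) [AddCommGroup U] [Module K U] [Module R U]
    [IsScalarTower K R U] [FiniteDimensional K U] [IsSemisimpleModule R U]
    [AddCommGroup V] [Module K V] [Module R V]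
    [IsScalarTower K R V] [FiniteDimensional K V] [IsSemisimpleModule R V],
    finrank K U + finrank K V ≤ n → hd K R U U + hd K R V V = hd K R U V + hd K R V U →
    ∀ r : R, tr K U r = tr K V r := by
  induction n using Nat.strong_induction_on with
  | _ n ih =>
    intro U V _ _ _ _ _ _ _ _ _ _ _ _ hn h r
    by_cases h1 : ∃ f : U →ₗ[R] V, f ≠ 0
    · obtain ⟨f, hf⟩ := h1
      obtain ⟨S, A, C, hA, hC, ⟨e1⟩, ⟨e2⟩⟩ := split (K := K) f hf
      rw [tr_congr e1, tr_congr e2, tr_prod, tr_prod]
      congr 1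
      refine ih (finrank K A + finrank K C) (by omega) A C le_rfl ?_ r
      rw [hd_congr_left e1, hd_congr_left e2, hd_congr_left e1, hd_congr_left e2,
        hd_congr_right e1, hd_congr_right e2, hd_congr_right e1, hd_congr_right e2] at h
      simp only [hd_prod_left, hd_prod_right] at h
      omega
    · by_cases h2 : ∃ f : V →ₗ[R] U, f ≠ 0
      · obtain ⟨f, hf⟩ := h2
        obtain ⟨S, A, C, hA, hC, ⟨e1⟩, ⟨e2⟩⟩ := split (K := K) f hf
        rw [tr_congr e1, tr_congr e2, tr_prod, tr_prod]
        congr 1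
        refine ih (finrank K C + finrank K A) (by omega) C A le_rfl ?_ r
        rw [hd_congr_left e1, hd_congr_left e2, hd_congr_left e1, hd_congr_left e2,
          hd_congr_right e1, hd_congr_right e2, hd_congr_right e1, hd_congr_right e2] at h
        simp only [hd_prod_left, hd_prod_right] at h
        omega
      · push Not at h1 h2
        have h3 : ∀ f : U →ₗ[R] V, f = 0 := h1
        have i1 : Subsingleton (U →ₗ[R] V) := ⟨fun f g => (h1 f).trans (h1 g).symm⟩
        have i2 : Subsingleton (V →ₗ[R] U) := ⟨fun f g => (h2 f).trans (h2 g).symm⟩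
        have h4 : hd K R U V = 0 := finrank_zero_of_subsingleton
        have h5 : hd K R V U = 0 := finrank_zero_of_subsingleton
        have h6 : hd K R U U = 0 := by omega
        have h7 : hd K R V V = 0 := by omega
        have h8 : Subsingleton (U →ₗ[R] U) := finrank_zero_iff.1 h6
        have h9 : Subsingleton (V →ₗ[R] V) := finrank_zero_iff.1 h7
        have h10 : ∀ x : U, x = 0 := fun x =>
          LinearMap.congr_fun (Subsingleton.elim (LinearMap.id : U →ₗ[R] U) 0) x
        have h11 : ∀ x : V, x = 0 := fun x =>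
          LinearMap.congr_fun (Subsingleton.elim (LinearMap.id : V →ₗ[R] V) 0) x
        have h12 : (Algebra.lsmul K K U r : Module.End K U) = 0 :=
          LinearMap.ext fun x => by rw [h10 x, map_zero, map_zero]
        have h13 : (Algebra.lsmul K K V r : Module.End K V) = 0 :=
          LinearMap.ext fun x => by rw [h11 x, map_zero, map_zero]
        rw [tr, tr, h12, h13, map_zero, map_zero]

section pi

variable {ι κ : Type} [Fintype ι] [Fintype κ] [DecidableEq ι] [DecidableEq κ]
  {M : ι → Type v} {N : κ → Type v}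
  [∀ i, AddCommGroup (M i)] [∀ i, Module K (M i)] [∀ i, Module R (M i)]
  [∀ i, IsScalarTower K R (M i)] [∀ i, FiniteDimensional K (M i)]
  [∀ i, AddCommGroup (N i)] [∀ i, Module K (N i)] [∀ i, Module R (N i)]
  [∀ i, IsScalarTower K R (N i)] [∀ i, FiniteDimensional K (N i)]

lemma hd_pi : hd K R (∀ i, M i) (∀ i, N i) = ∑ i, ∑ j, hd K R (M i) (N j) := by
  have h1 : hd K R (∀ i, M i) (∀ i, N i) = ∑ i, hd K R (M i) (∀ i, N i) := by
    rw [hd, ← LinearEquiv.finrank_eq (LinearMap.lsum R M (M := ∀ i, N i) K),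
      finrank_pi_fintype]
    rfl
  rw [h1]
  refine Finset.sum_congr rfl fun i _ => ?_
  have e : (M i →ₗ[R] ∀ j, N j) ≃ₗ[K] ∀ j, M i →ₗ[R] N j :=
    { toFun := fun f j => LinearMap.proj j ∘ₗ f
      invFun := fun f => LinearMap.pi f
      map_add' := fun f g => rfl
      map_smul' := fun c f => rfl
      left_inv := fun f => rfl
      right_inv := fun f => rfl }
  rw [hd, LinearEquiv.finrank_eq e, finrank_pi_fintype]
  rfl

lemma tr_pi (r : R) : tr K (∀ i, M i) r = ∑ i, tr K (M i) r := by
  classical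
  let b : ∀ i, Basis (Fin (finrank K (M i))) K (M i) := fun i => finBasis K (M i)
  rw [tr, LinearMap.trace_eq_matrix_trace K (Pi.basis b), Matrix.trace, Fintype.sum_sigma]
  refine Finset.sum_congr rfl fun i _ => ?_
  rw [tr, LinearMap.trace_eq_matrix_trace K (b i), Matrix.trace]
  refine Finset.sum_congr rfl fun j _ => ?_
  rw [Matrix.diag_apply, Matrix.diag_apply, LinearMap.toMatrix_apply, LinearMap.toMatrix_apply,
    Pi.basis_repr, Pi.basis_apply]
  congr 2
  change r • (Pi.single i (b i j) : ∀ i, M i) i = _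
  rw [Pi.single_eq_same]
  rfl

end pi

/-- **A virtual module of norm zero has character zero.** -/
theorem norm_zero {ι : Type} [Fintype ι] [DecidableEq ι] {M : ι → Type v}
    [∀ i, AddCommGroup (M i)] [∀ i, Module K (M i)] [∀ i, Module R (M i)]
    [∀ i, IsScalarTower K R (M i)] [∀ i, FiniteDimensional K (M i)]
    [∀ i, IsSemisimpleModule R (M i)] (w : ι → ℤ)
    (h : ∑ i, ∑ j, w i * w j * (hd K R (M i) (M j) : ℤ) = 0) (r : R) :
    ∑ i, (w i : K) * tr K (M i) r = 0 := by
  classical
  let P : (ι → ℕ) → Type := fun a => Σ i, Fin (a i)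
  let Q : (ι → ℕ) → Type v := fun a => ∀ x : P a, M x.1
  have hQ : ∀ a b : ι → ℕ, hd K R (∀ x : P a, M x.1) (∀ x : P b, M x.1) =
      ∑ i, ∑ j, a i * b j * hd K R (M i) (M j) := by
    intro a b
    rw [hd_pi (M := fun x : P a => M x.1) (N := fun x : P b => M x.1), Fintype.sum_sigma]
    refine Finset.sum_congr rfl fun i _ => ?_
    have h0 : ∑ y : Fin (a i), ∑ x : P b, hd K R (M (⟨i, y⟩ : P a).1) (M x.1) =
      ∑ _y : Fin (a i), ∑ x : P b, hd K R (M i) (M x.1) := rfl
    rw [h0, Finset.sum_const, Finset.card_univ, Fintype.card_fin, smul_eq_mul,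
      Fintype.sum_sigma, Finset.mul_sum]
    refine Finset.sum_congr rfl fun j _ => ?_
    have h1 : ∑ y : Fin (b j), hd K R (M i) (M (⟨j, y⟩ : P b).1) =
      ∑ _y : Fin (b j), hd K R (M i) (M j) := rfl
    rw [h1, Finset.sum_const, Finset.card_univ, Fintype.card_fin, smul_eq_mul, mul_assoc]
  have hT : ∀ a : ι → ℕ, tr K (∀ x : P a, M x.1) r = ∑ i, (a i : K) * tr K (M i) r := by
    intro a
    rw [tr_pi (M := fun x : P a => M x.1) r, Fintype.sum_sigma]
    refine Finset.sum_congr rfl fun i _ => ?_
    have h0 : ∑ y : Fin (a i), tr K (M (⟨i, y⟩ : P a).1) r = ∑ _y : Fin (a i), tr K (M i) r := rfl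
    rw [h0, Finset.sum_const, Finset.card_univ, Fintype.card_fin, nsmul_eq_mul]
  obtain ⟨a, ha⟩ : ∃ a : ι → ℕ, ∀ i, a i = (w i).toNat := ⟨_, fun _ => rfl⟩
  obtain ⟨b, hb⟩ : ∃ b : ι → ℕ, ∀ i, b i = (-w i).toNat := ⟨_, fun _ => rfl⟩
  have hw : ∀ i, w i = (a i : ℤ) - (b i : ℤ) := by
    intro i
    rw [ha, hb]
    omega
  have hss : ∀ a : ι → ℕ, IsSemisimpleModule R (∀ x : P a, M x.1) := fun a => inferInstance
  have h1 := norm_zero_aux (K := K) (R := R) _ (∀ x : P a, M x.1) (∀ x : P b, M x.1) le_rfl (by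
    rw [hQ, hQ, hQ, hQ]
    zify
    have h2 : ∑ i, ∑ j, w i * w j * (hd K R (M i) (M j) : ℤ) =
        (∑ i, ∑ j, (a i : ℤ) * a j * (hd K R (M i) (M j) : ℤ) +
          ∑ i, ∑ j, (b i : ℤ) * b j * (hd K R (M i) (M j) : ℤ)) -
        (∑ i, ∑ j, (a i : ℤ) * b j * (hd K R (M i) (M j) : ℤ) +
          ∑ i, ∑ j, (b i : ℤ) * a j * (hd K R (M i) (M j) : ℤ)) := by
      rw [← Finset.sum_add_distrib, ← Finset.sum_add_distrib, ← Finset.sum_sub_distrib]
      refine Finset.sum_congr rfl fun i _ => ?_
      rw [← Finset.sum_add_distrib, ← Finset.sum_add_distrib, ← Finset.sum_sub_distrib]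
      refine Finset.sum_congr rfl fun j _ => ?_
      rw [hw i, hw j]
      ring
    rw [h] at h2
    linarith) r
  rw [hT, hT] at h1
  have h3 : ∑ i, (w i : K) * tr K (M i) r =
      ∑ i, (a i : K) * tr K (M i) r - ∑ i, (b i : K) * tr K (M i) r := by
    rw [← Finset.sum_sub_distrib]
    refine Finset.sum_congr rfl fun i _ => ?_
    rw [hw i]
    push_cast
    ring
  rw [h3, h1, sub_self]

end Pool.Agent.Q10.JP
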