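import Mathlib

/-!
# Closed sets of positive measure in a compact group

A member of a Noetherian family of closed sets which is stable under translations and intersections
is either of measure zero or contains a coset of an open subgroup (Serre).
-/

open MeasureTheory Topology Pointwise

namespace Pool.Agent.Q10.JP

variable {Γ : Type*} [Group Γ] [TopologicalSpace Γ] [IsTopologicalGroup Γ] [CompactSpace Γ]
  [MeasurableSpace Γ] [BorelSpace Γ] (μ : Measure Γ) [μ.IsMulLeftInvariant]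
  [IsFiniteMeasure μ] [μ.OuterRegular]

/-- A closed set of positive measure meets its small translates in sets of positive measure. -/
lemma exists_nhds {W : Set Γ} (hW : IsClosed W) (hμ : μ W ≠ 0) :
    ∃ N ∈ 𝓝 (1 : Γ), ∀ g ∈ N, μ (W ∩ g • W) ≠ 0 := by
  have h1 : μ W < μ W + μ W := by
    exact ENNReal.lt_add_right (measure_ne_top μ W) hμ
  obtain ⟨V, hV, hVo, hVμ⟩ := W.exists_isOpen_lt_of_lt _ h1
  obtain ⟨N, hN, hNV⟩ := compact_open_separated_mul_left hW.isCompact hVo hV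
  refine ⟨N, hN, fun g hg h0 => ?_⟩
  have h2 : W ∪ g • W ⊆ V := by
    refine Set.union_subset hV ?_
    rintro _ ⟨x, hx, rfl⟩
    exact hNV (Set.mul_mem_mul hg hx)
  have h3 : MeasurableSet (g • W) := (hW.smul g).measurableSet
  have h4 := measure_union_add_inter W h3 (μ := μ)
  rw [h0, add_zero, measure_smul] at h4
  have h5 : μ (W ∪ g • W) ≤ μ V := measure_mono h2
  rw [h4] at h5
  exact absurd hVμ (not_lt.2 h5)

/-- **Sets of positive measure contain cosets.** -/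
theorem exists_coset {𝒵 : Set (Set Γ)} {H : Subgroup Γ} (hH : IsOpen (H : Set Γ))
    (hcl : ∀ A ∈ 𝒵, IsClosed A) (hint : ∀ A ∈ 𝒵, ∀ B ∈ 𝒵, A ∩ B ∈ 𝒵)
    (htr : ∀ g ∈ H, ∀ A ∈ 𝒵, g • A ∈ 𝒵)
    (hwf : ∀ S ⊆ 𝒵, S.Nonempty → ∃ W ∈ S, ∀ B ∈ S, ¬ B < W) {A : Set Γ} (hA : A ∈ 𝒵) (hμ : μ A ≠ 0) :
    ∃ U : Subgroup Γ, IsOpen (U : Set Γ) ∧ ∃ w ∈ A, ∀ u ∈ U, u * w ∈ A := by
  obtain ⟨W, ⟨hWZ, hWA, hWμ⟩, hmin⟩ : ∃ W, (W ∈ 𝒵 ∧ W ⊆ A ∧ μ W ≠ 0) ∧
      ∀ B, (B ∈ 𝒵 ∧ B ⊆ A ∧ μ B ≠ 0) → ¬ B < W := by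
    obtain ⟨W, hW, hm⟩ := hwf {B | B ∈ 𝒵 ∧ B ⊆ A ∧ μ B ≠ 0} (fun B hB => hB.1)
      ⟨A, hA, subset_rfl, hμ⟩
    exact ⟨W, hW, fun B hB => hm B hB⟩
  obtain ⟨N, hN, hNW⟩ := exists_nhds μ (hcl W hWZ) hWμ
  have key : ∀ g ∈ N, g ∈ H → W ⊆ g • W := by
    intro g hg hgH
    have h1 := hmin (W ∩ g • W) ⟨hint _ hWZ _ (htr g hgH W hWZ),
      Set.inter_subset_left.trans hWA, hNW g hg⟩
    by_contra h2
    apply h1
    refine lt_of_le_of_ne Set.inter_subset_left fun h3 => h2 ?_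
    rw [← h3]
    exact Set.inter_subset_right.trans (by rw [h3])
  let U : Subgroup Γ := MulAction.stabilizer Γ W
  have hU : N ∩ N⁻¹ ∩ H ⊆ U := by
    rintro g ⟨⟨h1, h2⟩, h3⟩
    change g • W = W
    apply le_antisymm
    · have h4 := key g⁻¹ h2 (H.inv_mem h3)
      rintro _ ⟨x, hx, rfl⟩
      obtain ⟨y, hy, hyx⟩ := h4 hx
      have h5 : g • x = y := by
        rw [← hyx]
        exact smul_inv_smul g y
      change g • x ∈ W
      rw [h5]
      exact hy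
    · exact key g h1 h3
  have hUo : IsOpen (U : Set Γ) := by
    apply Subgroup.isOpen_of_mem_nhds U (g := 1)
    refine Filter.mem_of_superset ?_ hU
    refine Filter.inter_mem (Filter.inter_mem hN ?_) (hH.mem_nhds H.one_mem)
    exact inv_mem_nhds_one Γ hN
  obtain ⟨w, hw⟩ : W.Nonempty := by
    by_contra h
    rw [Set.not_nonempty_iff_eq_empty] at h
    rw [h, measure_empty] at hWμ
    exact hWμ rfl
  refine ⟨U, hUo, w, hWA hw, fun u hu => hWA ?_⟩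
  have h6 : u • W = W := hu
  rw [← h6]
  exact ⟨w, hw, rfl⟩

end Pool.Agent.Q10.JP
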