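import Pool.Agent.Q10.JP.Defs
import Pool.Agent.Q10.JT.Geo
import Pool.Agent.Q10.JP.Coset
import Pool.Agent.Q10.JI.Exo

/-!
# Alternating sums from a coset
-/

open CategoryTheory AlgebraicGeometry

universe u w

set_option linter.unusedSectionVars false

namespace Pool.Agent.Q10.JP

open Module
open Pool.Agent.H914 Pool.Agent.H914.VarClass Pool.Agent.H914.VarClass.Obj
  Pool.Agent.H914.WeilCohomology
open Pool.Agent.Y133.Half (pw prj)
open Pool.Agent.Q55 (GaloisAction SubAction Virtually)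
open Pool.Agent.Q50.MTC (IsTate IsLadic)
open Pool.Agent.Q50.LI (dimSpan tateDim)
open Pool.Agent.Q60.TD (SemisimpleAt SSon Op)
open Pool.Agent.Q10.JT
open Pool.Agent.Q10.JI (mult_smul altTr_zero)

variable {k : Type u} [Field k] {𝒱 : VarClass k} {ops : CycleOps 𝒱}
  {E : WeilCohomology.{u, 0} ops} {Γ : Type w} [Group Γ]
  {G : GaloisAction E Γ} {X : 𝒱.Obj}

lemma Small.good {j n : ℕ} {γ : Γ} (h : Small G X j γ) (hn : n < JT.betti E X j) :
    Good G X n γ := ⟨h.1, (h.2 n hn).1, (h.2 n hn).2.1⟩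

/-- The order of the pole is the multiplicity of the eigenvalue one. -/
theorem poleOrder_eq {j : ℕ} {γ : Γ} (hd : γ ∈ (G.ρ X).dom) :
    poleOrder G X j γ =
      (repV G X j (G.ρ X).dom le_rfl ⟨γ, hd⟩).charpoly.rootMultiplicity 1 := by
  have hst : ∀ x ∈ E.gr X (2 * j), ((G.ρ X).act γ).toLinearMap x ∈ E.gr X (2 * j) :=
    fun x hx => (G.isGalois X).gr_mem γ hd (2 * j) x hx
  obtain ⟨g, hg⟩ : ∃ g : Module.End E.K (E.gr X (2 * j)),
    g = ((G.ρ X).act γ).toLinearMap.restrict hst := ⟨_, rfl⟩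
  have h1 : repV G X j (G.ρ X).dom le_rfl ⟨γ, hd⟩ = ((G.χ γ : E.K) ^ j)⁻¹ • g := by
    rw [hg]
    rfl
  rw [h1, mult_smul _ (pow_ne_zero _ (Units.ne_zero _)), ← LinearMap.finrank_maxGenEigenspace_eq]
  have hpow : ∀ (N : ℕ) (x : E.gr X (2 * j)),
      (((g - (G.χ γ : E.K) ^ j • (1 : Module.End E.K (E.gr X (2 * j)))) ^ N) x : E.H X) =
      ((((G.ρ X).act γ).toLinearMap - (G.χ γ : E.K) ^ j • LinearMap.id :
        Module.End E.K (E.H X)) ^ N) (x : E.H X) := by
    intro N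
    induction N with
    | zero => intro x; rfl
    | succ N ih =>
      intro x
      rw [pow_succ, pow_succ, Module.End.mul_apply, Module.End.mul_apply, ih]
      congr 1
      rw [hg]
      rfl
  have h2 : {c | InEig (G.ρ X) G.χ (E.gr X (2 * j)) j γ c} =
      ((End.maxGenEigenspace g ((G.χ γ : E.K) ^ j)).map (E.gr X (2 * j)).subtype :
        Submodule E.K (E.H X)) := by
    ext c
    constructor
    · rintro ⟨hc, N, hN⟩
      refine ⟨⟨c, hc⟩, ?_, rfl⟩
      change _ ∈ End.maxGenEigenspace g _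
      rw [End.mem_maxGenEigenspace]
      refine ⟨N, Subtype.ext ?_⟩
      rw [hpow]
      exact hN
    · rintro ⟨x, hx, rfl⟩
      refine ⟨x.2, ?_⟩
      change x ∈ End.maxGenEigenspace g _ at hx
      rw [End.mem_maxGenEigenspace] at hx
      obtain ⟨N, hN⟩ := hx
      refine ⟨N, ?_⟩
      have h3 := hpow N x
      rw [hN] at h3
      exact h3.symm
  rw [poleOrder, dimSpan, h2, Submodule.span_eq]
  exact (LinearEquiv.finrank_eq
    (Submodule.equivMapOfInjective _ (E.gr X (2 * j)).injective_subtype _)).symm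

/-- **The alternating sums**, from the vanishing of the traces on a coset. -/
theorem sum_coset {j i : ℕ} (hss : SemisimplePowers G X j) {Δ : Subgroup Γ}
    (hΔ : Δ.FiniteIndex) (hs : ∀ γ ∈ Δ, Small G X j γ) {w : Γ} (hw : w ∈ Δ)
    (hv : Virtually fun γ => ∀ hd : w * γ ∈ (G.ρ X).dom,
      altTr i (repV G X j (G.ρ X).dom le_rfl ⟨w * γ, hd⟩) = 0) :
    ∑ n ∈ Finset.range (JT.betti E X j + 1), (n.choose i : ℤ) *
      ((-1) ^ n * (altDim G X j n : ℤ)) = 0 := by
  classical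
  have hb := betti_eq (E := E) X j
  obtain ⟨Δ₀, hΔ₀, h0⟩ := hv
  obtain ⟨Δ₁, hΔe⟩ : ∃ Δ₁ : Subgroup Γ, Δ₁ = Δ ⊓ Δ₀ := ⟨_, rfl⟩
  have hfi : Δ₁.FiniteIndex := by
    rw [hΔe]
    infer_instance
  have hle : ∀ g ∈ Δ₁, g ∈ Δ := fun g hg => by
    rw [hΔe] at hg
    exact hg.1
  have hle0 : ∀ g ∈ Δ₁, g ∈ Δ₀ := fun g hg => by
    rw [hΔe] at hg
    exact hg.2
  have hdom : Δ₁ ≤ (G.ρ X).dom := fun g hg => (hs g (hle g hg)).1
  have hwd : w ∈ (G.ρ X).dom := (hs w hw).1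
  have hgood : ∀ n < JT.betti E X j, ∀ g ∈ Δ₁, Good G X n g := fun n hn g hg =>
    (hs g (hle g hg)).good hn
  have htate : ∀ n < JT.betti E X j, ∀ g ∈ Δ₁, ∀ c, IsAltTate G X j n c →
      (G.ρ (pw X n)).Twists G.χ (j * (n + 1)) c g := fun n hn g hg =>
    ((hs g (hle g hg)).2 n hn).2.2
  let ρ : ∀ n : Fin (JT.betti E X j + 1), Δ₁ →* Module.End E.K (⋀[E.K]^(n : ℕ) (E.gr X (2 * j))) :=
    fun n => repL (repV G X j Δ₁ hdom) n
  let T : ∀ n : Fin (JT.betti E X j + 1), Module.End E.K (⋀[E.K]^(n : ℕ) (E.gr X (2 * j))) :=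
    fun n => repL (repV G X j (G.ρ X).dom le_rfl) n ⟨w, hwd⟩
  have hss' : ∀ n, SSon (Op (ρ n) ⊤) ⊤ := by
    rintro ⟨n, hn⟩
    rcases n with _ | n
    · exact ss_zero _
    · exact ss_ext (hss n (by omega)) hfi hdom (hgood n (by omega))
  have hinv : ∀ n, finrank E.K (inv (ρ n)) = altDim G X j n := by
    rintro ⟨n, hn⟩
    rcases n with _ | n
    · exact inv_zero' _
    · exact finrank_inv hfi hdom (hgood n (by omega)) (htate n (by omega))
  have hT : ∀ n, ∀ x ∈ inv (ρ n), T n x = x := by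
    rintro ⟨n, hn⟩ x hx
    rcases n with _ | n
    · change repL (repV G X j (G.ρ X).dom le_rfl) 0 ⟨w, hwd⟩ x = x
      rw [repL_zero]
      rfl
    · have hn' : n < JT.betti E X j := by omega
      apply extM_inj X n (2 * j)
      have hx' : ∀ g : Δ₁, repL (repV G X j Δ₁ hdom) (n + 1) g x = x := hx
      have hc : IsAltTate G X j n (extM E X n (E.gr X (2 * j)) x) := by
        have h2 : extM E X n (E.gr X (2 * j)) x ∈ altSpan E X n (fun x => x ∈ E.gr X (2 * j)) := by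
          rw [← range_extM (S := E.gr X (2 * j))]
          exact ⟨x, rfl⟩
        refine ⟨h2, altSpan_le h2, Δ₁, hfi, fun g hgΔ _ => ?_⟩
        have h3 := extM_repL (hΔ := hdom) ⟨g, hgΔ⟩ (hgood n hn' g hgΔ) x
        rw [hx' ⟨g, hgΔ⟩] at h3
        conv_rhs => rw [h3]
        rw [smul_smul, mul_inv_cancel₀ (pow_ne_zero _ (Units.ne_zero _)), one_smul]
      have h4 := (hs w hw).2 n hn'
      have h5 := h4.2.2 _ hc h4.1
      have h6 := extM_repL (hΔ := le_rfl) (j := j) ⟨w, hwd⟩ ((hs w hw).good hn') x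
      change extM E X n (E.gr X (2 * j))
        (repL (repV G X j (G.ρ X).dom le_rfl) (n + 1) ⟨w, hwd⟩ x) = _
      rw [h6]
      change _ • (G.ρ (pw X n)).act w _ = _
      rw [h5, smul_smul, inv_mul_cancel₀ (pow_ne_zero _ (Units.ne_zero _)), one_smul]
  have hav := avg_coset ρ hss' T hT (fun n => (((n : ℕ).choose i : ℕ) : E.K) * (-1) ^ (n : ℕ)) (by
    intro g
    have hwg : w * g ∈ (G.ρ X).dom := Subgroup.mul_mem _ hwd (hdom g.2)
    have h3 := h0 g (hle0 g g.2) hwg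
    rw [altTr, ← hb, Finset.sum_range] at h3
    rw [← h3]
    refine Finset.sum_congr rfl fun n _ => ?_
    rw [mul_assoc]
    congr 3
    have h4 : (⟨w * g, hwg⟩ : (G.ρ X).dom) = ⟨w, hwd⟩ * ⟨g, hdom g.2⟩ := rfl
    rw [h4, map_mul]
    exact (exteriorPower.map_comp _ _).symm)
  simp only [hinv] at hav
  have hcast : ((∑ n ∈ Finset.range (JT.betti E X j + 1), (n.choose i : ℤ) *
      ((-1) ^ n * (altDim G X j n : ℤ)) : ℤ) : E.K) = 0 := by
    rw [← hav, Finset.sum_range]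
    push_cast
    refine Finset.sum_congr rfl fun n _ => ?_
    ring
  exact_mod_cast hcast

end Pool.Agent.Q10.JP
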