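import Pool.Agent.Q10.JP.Serre

/-!
# The zero sets of polynomials in the matrix coefficients of a representation
-/

open MeasureTheory Topology Pointwise

namespace Pool.Agent.Q10.JP

variable {Γ : Type*} [Group Γ] {𝕜 : Type*} [Field 𝕜] {I : Type*} [Fintype I] [DecidableEq I]
  (D : Subgroup Γ) (M : Γ → Matrix I I 𝕜)

/-- The set of zeros of the polynomials in `S`. -/
def zset (S : Set (MvPolynomial (I × I) 𝕜)) : Set Γ :=
  {γ | γ ∈ D ∧ ∀ f ∈ S, MvPolynomial.eval (fun p => M γ p.1 p.2) f = 0}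

/-- The ideal of the polynomials which vanish on `A`. -/
def vid (A : Set Γ) : Ideal (MvPolynomial (I × I) 𝕜) where
  carrier := {f | ∀ γ ∈ A, MvPolynomial.eval (fun p => M γ p.1 p.2) f = 0}
  add_mem' {f g} hf hg γ h := by rw [map_add, hf γ h, hg γ h, add_zero]
  zero_mem' γ _ := map_zero _
  smul_mem' c f hf γ h := by rw [smul_eq_mul, map_mul, hf γ h, mul_zero]

lemma zset_vid (S : Set (MvPolynomial (I × I) 𝕜)) :
    zset D M (vid M (zset D M S) : Set (MvPolynomial (I × I) 𝕜)) = zset D M S := by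
  apply le_antisymm
  · rintro γ ⟨h1, h2⟩
    exact ⟨h1, fun f hf => h2 f fun γ' h' => h'.2 f hf⟩
  · rintro γ h
    exact ⟨h.1, fun f hf => hf γ h⟩

lemma zset_wf (T : Set (Set Γ)) (hT : T ⊆ Set.range (zset D M)) (hne : T.Nonempty) :
    ∃ W ∈ T, ∀ B ∈ T, ¬ B < W := by
  obtain ⟨A, hA⟩ := hne
  have h1 : ((fun A => vid M A) '' T).Nonempty := ⟨_, A, hA, rfl⟩
  obtain ⟨_, ⟨W, hW, rfl⟩, hmax⟩ := set_has_maximal_iff_noetherian.2
    (inferInstance : IsNoetherian (MvPolynomial (I × I) 𝕜) (MvPolynomial (I × I) 𝕜)) _ h1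
  refine ⟨W, hW, fun B hB hlt => ?_⟩
  have h2 : vid M W ≤ vid M B := fun f hf γ hγ => hf γ (hlt.le hγ)
  have h3 := hmax _ ⟨B, hB, rfl⟩
  have h4 : vid M W = vid M B := by
    by_contra h5
    exact h3 (lt_of_le_of_ne h2 h5)
  obtain ⟨S, rfl⟩ := hT hW
  obtain ⟨S', rfl⟩ := hT hB
  apply hlt.ne
  rw [← zset_vid, ← h4, zset_vid]

lemma zset_inter (S S' : Set (MvPolynomial (I × I) 𝕜)) :
    zset D M S ∩ zset D M S' = zset D M (S ∪ S') := by
  ext γ
  constructor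
  · rintro ⟨⟨h1, h2⟩, -, h3⟩
    refine ⟨h1, ?_⟩
    rintro f (hf | hf)
    · exact h2 f hf
    · exact h3 f hf
  · rintro ⟨h1, h2⟩
    exact ⟨⟨h1, fun f hf => h2 f (Or.inl hf)⟩, h1, fun f hf => h2 f (Or.inr hf)⟩

lemma zset_smul {g : Γ} (hg : g ∈ D)
    (hM : ∀ g ∈ D, ∀ h ∈ D, M (g * h) = M g * M h) (S : Set (MvPolynomial (I × I) 𝕜)) :
    ∃ S', g • zset D M S = zset D M S' := by
  let φ : MvPolynomial (I × I) 𝕜 →+* MvPolynomial (I × I) 𝕜 :=
    MvPolynomial.eval₂Hom MvPolynomial.C (fun p => ∑ k, MvPolynomial.C (M g⁻¹ p.1 k) *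
      MvPolynomial.X (k, p.2))
  have hφ : ∀ γ ∈ D, ∀ f, MvPolynomial.eval (fun p => M γ p.1 p.2) (φ f) =
      MvPolynomial.eval (fun p => M (g⁻¹ * γ) p.1 p.2) f := by
    intro γ hγ f
    have h1 : (MvPolynomial.eval (fun p => M γ p.1 p.2)).comp φ =
        MvPolynomial.eval (fun p => M (g⁻¹ * γ) p.1 p.2) := by
      apply MvPolynomial.ringHom_ext
      · intro r
        rw [RingHom.comp_apply, MvPolynomial.eval_C]
        change MvPolynomial.eval _ (MvPolynomial.eval₂Hom MvPolynomial.C _ (MvPolynomial.C r)) = r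
        rw [MvPolynomial.eval₂Hom_C, MvPolynomial.eval_C]
      · intro p
        rw [RingHom.comp_apply, MvPolynomial.eval_X, hM _ (D.inv_mem hg) _ hγ, Matrix.mul_apply]
        change MvPolynomial.eval _ (MvPolynomial.eval₂Hom MvPolynomial.C _ (MvPolynomial.X p)) = _
        rw [MvPolynomial.eval₂Hom_X', map_sum]
        refine Finset.sum_congr rfl fun k _ => ?_
        rw [map_mul, MvPolynomial.eval_C, MvPolynomial.eval_X]
    exact RingHom.congr_fun h1 f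
  refine ⟨φ '' S, ?_⟩
  ext γ
  constructor
  · rintro ⟨x, ⟨hx, hxS⟩, rfl⟩
    change g * x ∈ _
    refine ⟨D.mul_mem hg hx, ?_⟩
    rintro _ ⟨f, hf, rfl⟩
    rw [hφ _ (D.mul_mem hg hx), inv_mul_cancel_left]
    exact hxS f hf
  · rintro ⟨h1, h2⟩
    refine ⟨g⁻¹ * γ, ⟨D.mul_mem (D.inv_mem hg) h1, fun f hf => ?_⟩, ?_⟩
    · rw [← hφ γ h1]
      exact h2 _ ⟨f, hf, rfl⟩
    · change g * (g⁻¹ * γ) = γ
      rw [mul_inv_cancel_left]

variable [TopologicalSpace Γ] [TopologicalSpace 𝕜] [IsTopologicalRing 𝕜] [T1Space 𝕜]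

lemma zset_closed (hD : IsClosed (D : Set Γ)) (hc : ContinuousOn M D)
    (S : Set (MvPolynomial (I × I) 𝕜)) : IsClosed (zset D M S) := by
  have h1 : IsClosed {A : Matrix I I 𝕜 | ∀ f ∈ S,
      MvPolynomial.eval (fun p => A p.1 p.2) f = 0} := by
    have h2 : {A : Matrix I I 𝕜 | ∀ f ∈ S, MvPolynomial.eval (fun p => A p.1 p.2) f = 0} =
        ⋂ f ∈ S, {A : Matrix I I 𝕜 | MvPolynomial.eval (fun p => A p.1 p.2) f = 0} := by
      ext A
      simp
    rw [h2]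
    refine isClosed_biInter fun f _ => ?_
    have h3 : Continuous fun A : Matrix I I 𝕜 => MvPolynomial.eval (fun p => A p.1 p.2) f := by
      refine (MvPolynomial.continuous_eval f).comp ?_
      exact continuous_pi fun p => continuous_id.matrix_elem p.1 p.2
    exact isClosed_singleton.preimage h3
  exact hc.preimage_isClosed_of_isClosed hD h1

variable [IsTopologicalGroup Γ] [CompactSpace Γ]
  [MeasurableSpace Γ] [BorelSpace Γ] (μ : Measure Γ) [μ.IsMulLeftInvariant]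
  [IsFiniteMeasure μ] [μ.OuterRegular]

/-- **Zero sets of positive measure contain cosets.** -/
theorem zset_coset (hD : IsOpen (D : Set Γ)) (hc : ContinuousOn M D)
    (hM : ∀ g ∈ D, ∀ h ∈ D, M (g * h) = M g * M h) (f : MvPolynomial (I × I) 𝕜)
    (hμ : μ {γ | γ ∈ D ∧ MvPolynomial.eval (fun p => M γ p.1 p.2) f = 0} ≠ 0) :
    ∃ U : Subgroup Γ, IsOpen (U : Set Γ) ∧ ∃ w ∈ D, ∀ u ∈ U, u * w ∈ D ∧
      MvPolynomial.eval (fun p => M (u * w) p.1 p.2) f = 0 := by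
  have hDc : IsClosed (D : Set Γ) := D.isClosed_of_isOpen hD
  have h0 : {γ | γ ∈ D ∧ MvPolynomial.eval (fun p => M γ p.1 p.2) f = 0} = zset D M {f} := by
    ext γ
    simp [zset]
  rw [h0] at hμ
  obtain ⟨U, hU, w, hw, h⟩ := exists_coset μ (𝒵 := Set.range (zset D M)) hD
    (by
      rintro _ ⟨S, rfl⟩
      exact zset_closed D M hDc hc S)
    (by
      rintro _ ⟨S, rfl⟩ _ ⟨S', rfl⟩
      exact ⟨_, (zset_inter D M S S').symm⟩)
    (by
      rintro g hg _ ⟨S, rfl⟩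
      obtain ⟨S', h⟩ := zset_smul D M hg hM S
      exact ⟨S', h.symm⟩)
    (fun T hT hne => zset_wf D M T hT hne) ⟨_, rfl⟩ hμ
  exact ⟨U, hU, w, hw.1, fun u hu => ⟨(h u hu).1, (h u hu).2 f rfl⟩⟩

end Pool.Agent.Q10.JP
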