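import Pool.Agent.Q10.JP.Sum
import Pool.Agent.Q10.JP.Zar

/-!
# The upper bound for the order of the pole outside a set of measure zero
-/

open CategoryTheory AlgebraicGeometry

universe u w

set_option linter.unusedSectionVars false

namespace Pool.Agent.Q10.JP

open Module MeasureTheory Topology
open Pool.Agent.H914 Pool.Agent.H914.VarClass Pool.Agent.H914.VarClass.Obj
  Pool.Agent.H914.WeilCohomology
open Pool.Agent.Y133.Half (pw prj)
open Pool.Agent.Q55 (GaloisAction SubAction Virtually)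
open Pool.Agent.Q50.MTC (IsTate IsLadic)
open Pool.Agent.Q50.LI (dimSpan tateDim)
open Pool.Agent.Q60.TD (SemisimpleAt SSon Op)
open Pool.Agent.Q10.JT
open Pool.Agent.Q10.JI (mult_smul altTr_zero)

section pol

variable {L : Type*} [Field L] {b : ℕ}

/-- The polynomial in the matrix coefficients which gives the alternating sum of the traces. -/
noncomputable def altPol (L : Type*) [Field L] (b i : ℕ) : MvPolynomial (Fin b × Fin b) L :=
  ∑ n ∈ Finset.range (b + 1), (n.choose i : MvPolynomial (Fin b × Fin b) L) *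
    ((-1) ^ n * ∑ s ∈ (Finset.univ : Finset (Fin b)).powersetCard n,
      ((Matrix.mvPolynomialX (Fin b) (Fin b) L).submatrix
        (Subtype.val : s → Fin b) (Subtype.val : s → Fin b)).det)

lemma eval_altPol (i : ℕ) (A : Matrix (Fin b) (Fin b) L) :
    MvPolynomial.eval (fun p => A p.1 p.2) (altPol L b i) =
      ∑ n ∈ Finset.range (b + 1), (n.choose i : L) *
        ((-1) ^ n * ∑ s ∈ (Finset.univ : Finset (Fin b)).powersetCard n,
          (A.submatrix (Subtype.val : s → Fin b) (Subtype.val : s → Fin b)).det) := by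
  rw [altPol, map_sum]
  refine Finset.sum_congr rfl fun n _ => ?_
  rw [map_mul, map_mul, map_natCast, map_pow, map_neg, map_one, map_sum]
  congr 2
  refine Finset.sum_congr rfl fun s _ => ?_
  rw [RingHom.map_det]
  congr 1
  ext x y
  rw [RingHom.mapMatrix_apply, Matrix.map_apply, Matrix.submatrix_apply, Matrix.submatrix_apply,
    Matrix.mvPolynomialX_apply, MvPolynomial.eval_X]

end pol

variable {k : Type u} [Field k] {𝒱 : VarClass k} {ops : CycleOps 𝒱}
  {E : WeilCohomology.{u, 0} ops} {Γ : Type w} [Group Γ]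
  {G : GaloisAction E Γ} {X : 𝒱.Obj}

open Classical in
/-- The matrix of the twisted action, with `ℓ`-adic coefficients. -/
noncomputable def mat (G : GaloisAction E Γ) (X : 𝒱.Obj) (j : ℕ) {L : Type} [Field L]
    (e : E.K ≃+* L) (γ : Γ) :
    Matrix (Fin (finrank E.K (E.gr X (2 * j)))) (Fin (finrank E.K (E.gr X (2 * j)))) L :=
  if h : γ ∈ (G.ρ X).dom then
    (LinearMap.toMatrix (finBasis E.K (E.gr X (2 * j))) (finBasis E.K (E.gr X (2 * j)))
      (repV G X j (G.ρ X).dom le_rfl ⟨γ, h⟩)).map e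
  else 0

lemma mat_of_mem {j : ℕ} {L : Type} [Field L] (e : E.K ≃+* L) {γ : Γ} (h : γ ∈ (G.ρ X).dom) :
    mat G X j e γ = (LinearMap.toMatrix (finBasis E.K (E.gr X (2 * j)))
      (finBasis E.K (E.gr X (2 * j))) (repV G X j (G.ρ X).dom le_rfl ⟨γ, h⟩)).map e := by
  rw [mat, dif_pos h]

lemma mat_mul {j : ℕ} {L : Type} [Field L] (e : E.K ≃+* L) {γ γ' : Γ} (h : γ ∈ (G.ρ X).dom)
    (h' : γ' ∈ (G.ρ X).dom) : mat G X j e (γ * γ') = mat G X j e γ * mat G X j e γ' := by
  rw [mat_of_mem e h, mat_of_mem e h', mat_of_mem e (Subgroup.mul_mem _ h h')]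
  have h1 : (⟨γ * γ', Subgroup.mul_mem _ h h'⟩ : (G.ρ X).dom) = ⟨γ, h⟩ * ⟨γ', h'⟩ := rfl
  rw [h1, map_mul, Module.End.mul_eq_comp, LinearMap.toMatrix_comp _ (finBasis E.K _)]
  exact Matrix.map_mul (f := (e : E.K →+* L))

lemma eval_mat {j : ℕ} {L : Type} [Field L] (e : E.K ≃+* L) {γ : Γ} (h : γ ∈ (G.ρ X).dom)
    (i : ℕ) : MvPolynomial.eval (fun p => mat G X j e γ p.1 p.2) (altPol L _ i) =
      e (altTr i (repV G X j (G.ρ X).dom le_rfl ⟨γ, h⟩)) := by
  rw [eval_altPol, mat_of_mem e h]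
  exact (map_altTr (e : E.K →+* L) i _).symm

/-- The zero of the alternating polynomial. -/
lemma pow_dvd (G : GaloisAction E Γ) (X : 𝒱.Obj) (j : ℕ) :
    (1 - Polynomial.X) ^ altOrder G X j ∣ altPoly G X j := by
  rw [one_sub_dvd_iff]
  exact Polynomial.pow_rootMultiplicity_dvd _ _

lemma altPoly_ne (G : GaloisAction E Γ) (X : 𝒱.Obj) (j : ℕ) : altPoly G X j ≠ 0 := by
  intro h
  let _ : TopologicalSpace Γ := ⊥
  have h1 := altPoly_coeff G X j 0 (Nat.zero_le _)
  rw [h, Polynomial.coeff_zero, pow_zero, one_mul, altDim] at h1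
  norm_num at h1

lemma le_altOrder {j r : ℕ} (h : (1 - Polynomial.X) ^ r ∣ altPoly G X j) :
    r ≤ altOrder G X j := by
  rw [one_sub_dvd_iff] at h
  exact (Polynomial.le_rootMultiplicity_iff (altPoly_ne G X j)).2 h

variable [TopologicalSpace Γ] {ℓ : ℕ} [Fact ℓ.Prime] {e : E.K ≃+* ℚ_[ℓ]}

lemma mat_cont (hX : IsLadic (G.ρ X) G.χ e) (j : ℕ) :
    ContinuousOn (mat G X j e) ((G.ρ X).dom : Set Γ) := by
  classical
  rw [continuousOn_iff_continuous_restrict]
  let D := (G.ρ X).dom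
  let b := finBasis E.K (E.gr X (2 * j))
  have h0 : Set.domRestrict ((G.ρ X).dom : Set Γ) (mat G X j e) =
      fun γ : D => (LinearMap.toMatrix b b (repV G X j D le_rfl γ)).map e := by
    funext γ
    exact mat_of_mem e γ.2
  rw [h0]
  refine continuous_matrix fun a c => ?_
  obtain ⟨f, hf⟩ := (b.coord a).exists_extend
  have h2 : ∀ γ : D, (LinearMap.toMatrix b b (repV G X j D le_rfl γ)).map e a c =
      (e (G.χ γ) ^ j)⁻¹ * e (f ((G.ρ X).act γ (b c))) := by
    intro γ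
    rw [Matrix.map_apply, LinearMap.toMatrix_apply, ← Basis.coord_apply, ← hf,
      LinearMap.comp_apply, Submodule.subtype_apply, repV_coe, map_smul, smul_eq_mul, map_mul,
      map_inv₀, map_pow]
  have h3 : (fun γ : D => (LinearMap.toMatrix b b (repV G X j D le_rfl γ)).map e a c) =
      fun γ : D => (e (G.χ γ) ^ j)⁻¹ * e (f ((G.ρ X).act γ (b c))) := funext h2
  have h4 : Continuous fun γ : D => (e (G.χ γ) ^ j)⁻¹ * e (f ((G.ρ X).act γ (b c))) := by
    refine Continuous.mul ?_ (hX.cont _ f)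
    refine Continuous.inv₀ (hX.cont'.pow j) fun γ => pow_ne_zero _ ?_
    rw [Ne, map_eq_zero]
    exact Units.ne_zero _
  rw [← h3] at h4
  exact h4

/-- **The upper bound.** -/
theorem upper [MeasurableSpace Γ] [BorelSpace Γ] {μ : Measure Γ} [μ.IsMulLeftInvariant]
    [IsFiniteMeasure μ] [μ.OuterRegular] (hX : IsLadic (G.ρ X) G.χ e) {j : ℕ}
    (hss : SemisimplePowers G X j) {Δ : Subgroup Γ} (hΔ : Δ.FiniteIndex)
    (hs : ∀ γ ∈ Δ, Small G X j γ) :
    μ {γ | γ ∈ Δ ∧ altOrder G X j < poleOrder G X j γ} = 0 := by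
  have tg := hX.topGroup
  have cs := hX.compact
  by_contra hμ
  obtain ⟨m, hm⟩ : ∃ m, m = altOrder G X j := ⟨_, rfl⟩
  rw [← hm] at hμ
  -- the closure
  have hcl : (Δ.topologicalClosure).FiniteIndex :=
    Subgroup.finiteIndex_of_le Δ.le_topologicalClosure
  have hop : IsOpen (Δ.topologicalClosure : Set Γ) :=
    Subgroup.isOpen_of_isClosed_of_finiteIndex _ Δ.isClosed_topologicalClosure
  have hdom : Δ ≤ (G.ρ X).dom := fun g hg => (hs g hg).1
  have hdom' : Δ.topologicalClosure ≤ (G.ρ X).dom :=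
    Δ.topologicalClosure_minimal hdom ((G.ρ X).dom.isClosed_of_isOpen hX.isOpen)
  have hsub : {γ | γ ∈ Δ ∧ m < poleOrder G X j γ} ⊆ {γ | γ ∈ Δ.topologicalClosure ∧
      MvPolynomial.eval (fun p => mat G X j e γ p.1 p.2) (altPol ℚ_[ℓ] _ m) = 0} := by
    rintro γ ⟨hγ, hlt⟩
    refine ⟨Δ.le_topologicalClosure hγ, ?_⟩
    rw [eval_mat e (hdom hγ), map_eq_zero]
    refine altTr_zero (r := m + 1) ?_ (Nat.lt_succ_self m)
    rw [← poleOrder_eq]
    exact hlt
  have hμ' : μ {γ | γ ∈ Δ.topologicalClosure ∧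
      MvPolynomial.eval (fun p => mat G X j e γ p.1 p.2) (altPol ℚ_[ℓ] _ m) = 0} ≠ 0 :=
    fun h => hμ (measure_mono_null hsub h)
  obtain ⟨U, hU, w, hw, hUw⟩ := zset_coset Δ.topologicalClosure (mat G X j e) μ hop
    ((mat_cont hX j).mono hdom') (fun g hg h hh => mat_mul e (hdom' hg) (hdom' hh)) _ hμ'
  -- an element of the subgroup in the coset
  have hnb : {γ : Γ | γ * w⁻¹ ∈ U} ∈ 𝓝 w := by
    have h1 : IsOpen {γ : Γ | γ * w⁻¹ ∈ U} := hU.preimage (continuous_mul_const w⁻¹)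
    refine h1.mem_nhds ?_
    change w * w⁻¹ ∈ U
    rw [mul_inv_cancel]
    exact U.one_mem
  have hw' : w ∈ closure (Δ : Set Γ) := hw
  obtain ⟨w', hw1, hw2⟩ := mem_closure_iff_nhds.1 hw' _ hnb
  have hUfi : U.FiniteIndex := Subgroup.finiteIndex_iff_finite_quotient.2
    (Subgroup.quotient_finite_of_isOpen U hU)
  have hcom : (U.comap (MulAut.conj w').toMonoidHom).FiniteIndex := by
    refine ⟨?_⟩
    rw [Subgroup.index_comap_of_surjective _ (MulAut.conj w').surjective]
    exact hUfi.index_ne_zero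
  have hz := sum_coset (i := m) hss hΔ hs hw2 ⟨Δ ⊓ U.comap (MulAut.conj w').toMonoidHom,
    inferInstance, by
    rintro g ⟨hg1, hg2⟩ hd
    have h1 : w' * g * w'⁻¹ ∈ U := hg2
    have h2 : w' * g * w'⁻¹ * (w' * w⁻¹) ∈ U := U.mul_mem h1 hw1
    have h3 := hUw _ h2
    have h4 : w' * g * w'⁻¹ * (w' * w⁻¹) * w = w' * g := by group
    rw [h4] at h3
    have h5 := h3.2
    rw [eval_mat e hd, map_eq_zero] at h5
    exact h5⟩
  have hdvd : (1 - Polynomial.X) ^ (m + 1) ∣ altPoly G X j := by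
    rw [dvd_iff (altPoly_natDegree G X j)]
    intro i hi
    rcases Nat.lt_succ_iff_lt_or_eq.1 hi with h | h
    · have h1 := pow_dvd G X j
      rw [← hm, dvd_iff (altPoly_natDegree G X j)] at h1
      exact h1 i h
    · subst h
      rw [← hz]
      refine Finset.sum_congr rfl fun n hn => ?_
      rw [Finset.mem_range] at hn
      rw [altPoly_coeff G X j n (Nat.lt_succ_iff.1 hn)]
  have h6 := le_altOrder hdvd
  omega

end Pool.Agent.Q10.JP
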